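import Mathlib
import Pool.Agent.helper37.L5.Spec
import Pool.Agent.helper22.OB.SpecG
import Pool.Agent.helper70.LZ.SpecW

/-!
# MP_baa4d7_al, THEOREM NA: blocks with ARBITRARY (nonabelian) defect groups `D` with a large cyclic central subgroup

THEOREM. `p` odd, `D` any `p`-group, `z ∈ Z(D)` of order `p ^ e`, `|D| ≤ p ^ (e + m)`, `2 m + 1 + ⌊m / 2⌋ ≤ e`. For every finite group `G` with `O_p(G) = 1` and every block `B` of `G` with defect group `D` the alternating sum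
of the numbers of characters (all defects together) is `0`.

METHOD WITHOUT BRAUER PAIRS. A UNIT CLASS of the block of `ψ` in `L` is a class `cls L (z x)`, `z` a `p`-element of order `p ^ e`, `x` `p`-regular, `z x = x z`, on which the central character is not in `M`, with `|C_L(z x)|_p ≤ p ^ (e + m)` (`Ucl`). `E = Eg p e z = Ω_1⟨z⟩`. Unit classes pass to
all blocks `b` of subgroups `K` with `b ^ L = B` (NUH); the group `E` is unique up to conjugation in `K` (NUE), because two elements of order `p ^ e` of a defect group have the same `p ^ (e - 1)`-th powers up to generators (NEC). First main theorem: the blocks `b` of `L ⊓ nz E` with `b ^ L = B` and a unit class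
with `Eg = E` form exactly ONE block (NXU, NQU). `BE`: its characters, `lE`: the number of its irreducible Brauer characters. CLAIM `MNc`: `l(B) = lE`, by induction on `|G|`: if `E ≤ O_p(G)` by Fong-Reynolds (block F); otherwise by the toggle `P ↦ P E'` on chains (block T), the divisibility of the chain sum
by `p ^ (e - m / 2) |G|` (block D) and the bound `l ≤ p ^ (2 m + 1)` (BZN, helper70).

RULES FOR ROWS. File `Pool/Agent/<seat>/NA/XXX.lean` with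

  import Pool.Agent.helper37.NA.Spec
  set_option autoImplicit false
  namespace Pool.Agent.NAB
  open Pool.Agent.helper58.DC Pool.Agent.DI Pool.Agent.GR Pool.Agent.OB Pool.Agent.DR Pool.Agent.FI Pool.Agent.FI3 Pool.Agent.FI4 Pool.Agent.FI4I Pool.Agent.LE Pool.Agent.L5
  theorem XXX (hYYY : YYY_stmt) ... : XXX_stmt := ...
  end Pool.Agent.NAB

auxiliary lemmas prefixed `XXX_`, no sorry, no double quotes in the file, no `convert`, no `congr!`. The rows named in the docstring are hypotheses; all rows of the earlier specs (GR, DI, DR, OB, FI, FI3, FI4, LE, L5: all proved) may be added as further hypotheses (no circles).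
Ready lemmas: `helper59/FI/Base` (`SB_inner`, `SB_conj`, `funMap_mul`), `helper58/FI/DefsC` (`mem_cjS`, `cjF_apply`), `helper12/FI/Defs` (`cz_conj`, `cc_funMap`, `SB.refl/symm/trans`). Main sources: `helper22/FI/SpecA` (DEX DGL DGW CNTL EXB SBI DCM VN1 DUN NCJ SYL CLS TRN CJG TPR MLT),
`helper58/FI/SpecC` (FEQ FSI FBC FT0), `helper83/GR/Spec` (CCI IDM EIN), `helper35/DR/SpecC` (CFA CCJ).
-/

set_option autoImplicit false

namespace Pool.Agent.NAB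

open Pool.Agent.helper58.DC Pool.Agent.DI Pool.Agent.GR Pool.Agent.OB Pool.Agent.DR Pool.Agent.FI Pool.Agent.FI3 Pool.Agent.FI4 Pool.Agent.FI4I Pool.Agent.LE Pool.Agent.L5

section

variable {G : Type} [Group G]

/-- A unit class `cls L (z * x)` of the block of `ψ` in `L`. -/
structure Ucl (p e m : ℕ) (M : Ideal (integralClosure ℤ ℂ)) (L : Subgroup G) (ψ : G → ℂ) (z x : G) : Prop where
  pe : PEl p z
  re : PReg p x
  co : z * x = x * z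
  zm : z ∈ L
  xm : x ∈ L
  od : orderOf z = p ^ e
  ne : ¬ InM M (cc ψ (cls L (z * x)))
  cd : pp p (Cz L (z * x)) ≤ p ^ (e + m)

/-- `Ω_1⟨z⟩` for `z` of order `p ^ e`. -/
def Eg (p e : ℕ) (z : G) : Subgroup G := Subgroup.zpowers (z ^ p ^ (e - 1))

/-- The characters of the subgroup `K` in the blocks `b` of `K` with `b ^ L` the block of `ψ` which have a unit class with `Eg = E`. -/
def BE (p e m : ℕ) (M : Ideal (integralClosure ℤ ℂ)) (L K E : Subgroup G) (ψ : G → ℂ) : Set (G → ℂ) :=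
  {η | η ∈ IrrOn K ∧ SB M L η ψ ∧ ∃ z x : G, Ucl p e m M K η z x ∧ Eg p e z = E}

/-- The number of the irreducible Brauer characters in these blocks. -/
noncomputable def lE (p e m : ℕ) (M : Ideal (integralClosure ℤ ℂ)) (L K E : Subgroup G) (ψ : G → ℂ) : ℂ :=
  ∑ᶠ η ∈ BE p e m M L K E ψ, EE p K η η

end

/-- The claim of the main induction for the group `G`. -/
def MNc (p e m : ℕ) (M : Ideal (integralClosure ℤ ℂ)) (G : Type) [Group G] : Prop :=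
  ∀ χ ∈ Irr G, ∀ z x : G, Ucl p e m M (⊤ : Subgroup G) χ z x →
    Le p M (⊤ : Subgroup G) χ = lE p e m M (⊤ : Subgroup G) (nz (Eg p e z)) (Eg p e z) χ

/-! ## 1. The subgroup `E` (pure group theory) -/

/-- **NEG** (short; pure). Proofs: (1) `conj_pow`, `mem_cjS`, `Subgroup.mem_zpowers_iff`. (2), (3) `Subgroup.zpowers_le`. (4) `z` and `x` are powers of `z * x` (coprime orders: `PEl`, `PReg`, `Commute`; grep `pow_mem` lemmas of project GR / FI, e.g. the row PPT or `FIB_`-lemmas; or: with `orderOf z = p ^ k`, `orderOf x = n` prime to `p`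
`(z * x) ^ (n * a)` is `z` for `n a ≡ 1` modulo `p ^ k`): so an element commuting with `z * x` commutes with `z` and `x`, hence with `Eg p e z`. (5) direct. (6) `orderOf_pow_orderOf_div` type lemmas. (7) `Subgroup.mem_subgroupOf`, `Subgroup.coe_zpow`. -/
def NEG_stmt : Prop :=
  ∀ (p e : ℕ), p.Prime → ∀ (G : Type) [Group G] [Finite G] (z : G),
    (∀ g : G, Eg p e (g * z * g⁻¹) = cjS g (Eg p e z)) ∧
    (∀ L : Subgroup G, z ∈ L → Eg p e z ≤ L) ∧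
    (∀ R : Subgroup G, Eg p e z ≤ R ↔ z ^ p ^ (e - 1) ∈ R) ∧
    (∀ x : G, PEl p z → PReg p x → z * x = x * z → ∀ L : Subgroup G, Cz L (z * x) ≤ Cz L z ∧ Cz L (z * x) ≤ Cz L x ∧
      Cz L (z * x) ≤ nz (Eg p e z) ∧ (z * x ∈ L → z ∈ L ∧ x ∈ L)) ∧
    (Subgroup.centralizer ({z} : Set G) ≤ cz (Eg p e z) ∧ cz (Eg p e z) ≤ nz (Eg p e z)) ∧
    ((PEl p z → IsPGroup p (Eg p e z)) ∧ (1 ≤ e → orderOf z = p ^ e → Eg p e z ≠ ⊥ ∧ orderOf (z ^ p ^ (e - 1)) = p)) ∧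
    ∀ (N : Subgroup G) (y : N), (Eg p e (y : G)).subgroupOf N = Eg p e y

/-- **NEC** (short; pure; from NEG). Uniqueness of `E` in a `p`-group `D`. Proof: `⟨z⟩` is normal in `D` (central), `|D : ⟨z⟩| = p ^ k` with `k ≤ m` (`|D| ≤ p ^ (e + m)`), so `w ^ p ^ k ∈ ⟨z⟩` (`Subgroup.pow_index_mem` for `(zpowers z).subgroupOf D`), so `w ^ p ^ (e - 1) ∈ ⟨z⟩` (`k ≤ m ≤ e - 1`). It has order `p`, and a cyclic group has
only one subgroup of order `p` (`w ^ p ^ (e - 1) = z ^ a`, `z ^ (a p) = 1`, so `p ^ (e - 1)` divides `a` and `Eg w ≤ Eg z`; equality as both have `p` elements). `nz D ≤ nz E`: for `n ∈ nz D` the element `n z n⁻¹ ∈ D` has order `p ^ e`, so `cjS n E = Eg (n z n⁻¹) = E`. -/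
def NEC_stmt : Prop :=
  ∀ (p e m : ℕ), p.Prime → m < e → ∀ (G : Type) [Group G] [Finite G] (D : Subgroup G), IsPGroup p D → Nat.card D ≤ p ^ (e + m) →
    ∀ z ∈ D, (∀ d ∈ D, z * d = d * z) → orderOf z = p ^ e →
    (∀ w ∈ D, orderOf w = p ^ e → Eg p e w = Eg p e z) ∧ nz D ≤ nz (Eg p e z) ∧ Eg p e z ≤ D ∧ cz D ≤ nz (Eg p e z)

/-- **NTR** (medium; from B2). `CentreOut` with `c = e - m / 2`: `1 ≤ c` and `z ^ p ^ (c - 1) ∉ ⁅D, D⁆`. Proof: let `w = z ^ p ^ (c - 1)`, of order `p ^ (m / 2 + 1)` (as `m / 2 + 1 ≤ e`). In the type `D` (or with `IrrOn D`): `∑_{χ ∈ Irr D} χ 1 * χ g = 0` for `g ≠ 1` (column orthogonality; grep: as in KUP, or B-rows of DI, `regular` character), for `g = z ^ p ^ (e - 1) ≠ 1`: so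
there is an irreducible representation `ρ` of `D` whose central element `z` acts by a scalar `λ` (Schur) with `λ ^ p ^ (e - 1) ≠ 1`, i.e. `λ` has order `p ^ e`. `n = dim ρ`. (1) `n ^ 2 * p ^ e ≤ |D|`: `|D| = ∑_{g ∈ D} |χ g| ^ 2` (B2) `≥ ∑_{g ∈ ⟨z⟩} n ^ 2`. So `n ^ 2 ≤ p ^ m`.
(2) if `w ∈ ⁅D, D⁆` then `det ρ(w) = 1` (`det ∘ ρ` is a homomorphism into a commutative group), and `det ρ(w) = (λ ^ p ^ (c - 1)) ^ n`, so `p ^ (m / 2 + 1)` divides `n`, and `p ^ (2 * (m / 2) + 2) ≤ n ^ 2 ≤ p ^ m`, a contradiction. -/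
def NTR_stmt : Prop :=
  ∀ (p e m : ℕ), p.Prime → m < e → ∀ (G : Type) [Group G] [Finite G] (D : Subgroup G), IsPGroup p D → Nat.card D ≤ p ^ (e + m) →
    ∀ z ∈ D, (∀ d ∈ D, z * d = d * z) → orderOf z = p ^ e → Pool.Agent.MAPW.CentreOut p (e - m / 2) D

/-! ## 2. Unit classes -/

/-- **NDG** (short to medium; from DG6 of `helper22/OB/SpecG`, TR1, TR2, TR3, CLS, TPR). Relative form of DG6. Proof: type `L`: `rN L ψ ∈ IrrOn (L.subgroupOf L) = IrrOn ⊤ = Irr L` (TR1, TPR), `DefAt p M (rN L ψ) (D.subgroupOf L) ⟨y, _⟩` (as in the proof of RTN, `Pool/Agent/*/FI4/RTN.lean`, item `dfa`), DG6 for `⟨z, _⟩`; back by TR2 (1), (3) and CLS (`omega = cc .. (cls ⊤ ..)`). -/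
def NDG_stmt : Prop :=
  ∀ (p : ℕ) (M : Ideal (integralClosure ℤ ℂ)), Setup p M → ∀ (G : Type) [Group G] [Finite G] (L : Subgroup G),
    ∀ ψ ∈ IrrOn L, ∀ (D : Subgroup G) (y : G), DefL p M L ψ D y → ∀ z ∈ D, (∀ d ∈ D, z * d = d * z) →
    ¬ InM M (cc ψ (cls L (z * y)))

/-- **NCD** (short to medium; from DEX, DGL, CNTL, TRN). The defect group of `b(θ)`, `θ` a character of `H = L ⊓ cz D`, is `D ⊓ cz D`. Proof: `D ≤ L` (`DefL.le`), `Z = D ⊓ cz D ≤ H`, `H ≤ cz Z`. DEX for `H`, `θ`: `DefL p M H θ D₁ w`. `Z ≤ D₁`: CNTL for `L := H`, `R := Z` (`H ⊓ cz Z = H`, `η = ψ = θ`): `l ∈ H` with `l r l⁻¹ ∈ D₁`, and `l` commutes with `Z`.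
`D₁ ≤ Z`: `D₁ ≤ H ≤ cz D`, so `R = D ⊔ D₁` is a `p`-group (`D`, `D₁` commute elementwise; `Subgroup.mem_sup_of_normal..` or `R = D * D₁`, `IsPGroup.to_sup_of_normal_left'`), `R ≤ L`, `L ⊓ cz R = H ⊓ cz D₁`. DGL for `H`, `θ`, `D₁`: `θ₁ ∈ IrrOn (H ⊓ cz D₁)`, `SB M H θ₁ θ`; TRN: `SB M L θ₁ ψ`. CNTL for `L`, `R`, `η = θ₁`, `ψ`, `(D, x)`:
`l ∈ L` with `l R l⁻¹ ≤ D`, so `|R| ≤ |D|`, `R = D`, `D₁ ≤ D ⊓ cz D`. -/
def NCD_stmt : Prop :=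
  ∀ (p : ℕ) (M : Ideal (integralClosure ℤ ℂ)), Setup p M → ∀ (G : Type) [Group G] [Finite G] (L : Subgroup G),
    ∀ ψ ∈ IrrOn L, ∀ (D : Subgroup G) (x : G), DefL p M L ψ D x → ∀ θ ∈ IrrOn (L ⊓ cz D), SB M L θ ψ →
    ∃ w : G, DefL p M (L ⊓ cz D) θ (D ⊓ cz D) w

/-- **NUC** (short to medium; from DGL, NCD, SBI, DCM, CLS, VN1, NEG). A unit class and the defect group. Proof: `|D| ≤ pp p (Cz L (y v))` is `DefL.min`. DGL: `θ ∈ IrrOn H`, `H = L ⊓ cz D`, `SB M L θ ψ`; `cc θ (cls L (y v))` is not `InM` (SBI). DCM (1) for the subgroup `H`, `θ`, `z = cls L (y v)` (invariant under `H`): there is `w` with `cls L (y v) w ≠ 0` and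
`cc θ (cls H w)` not `InM`; `w ∈ H` (CLS: otherwise it is `0`), `w = l (y v) l⁻¹`, `l ∈ L`. `y' = l y l⁻¹`, `v' = l v l⁻¹` are in `H` (NEG (4)). If `y' ∉ D ⊓ cz D` then by VN1 for `H ≤ cz (D ⊓ cz D)` and NCD `θ (y' v') = 0`, and `θ` vanishes on the class of `w`, so `cc θ (cls H w) = 0`. -/
def NUC_stmt : Prop :=
  ∀ (p : ℕ) (M : Ideal (integralClosure ℤ ℂ)), Setup p M → ∀ (G : Type) [Group G] [Finite G] (L : Subgroup G),
    ∀ ψ ∈ IrrOn L, ∀ (D : Subgroup G) (x : G), DefL p M L ψ D x → ∀ y v : G, PEl p y → PReg p v → y * v = v * y →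
    y * v ∈ L → ¬ InM M (cc ψ (cls L (y * v))) →
    Nat.card D ≤ pp p (Cz L (y * v)) ∧ ∃ l ∈ L, l * y * l⁻¹ ∈ D ∧ ∀ d ∈ D, l * y * l⁻¹ * d = d * (l * y * l⁻¹)

/-- **NUD** (short; from NUC, DEX, CJG, NEG). `z` is central in a defect group. Proof of the first item: NUC. Second item: `(D₀, x₀)` from DEX, `l` from the first item, `D = cjS l⁻¹ D₀`; CJG (4) for `g = l⁻¹` (`cjS g L = L`, `cjF g ψ = ψ` as `ψ` is a class function of `L` which vanishes outside `L`) gives `DefL p M L ψ D (l⁻¹ x₀ l)`. -/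
def NUD_stmt : Prop :=
  ∀ (p e m : ℕ) (M : Ideal (integralClosure ℤ ℂ)), Setup p M → ∀ (G : Type) [Group G] [Finite G] (L : Subgroup G),
    ∀ ψ ∈ IrrOn L, ∀ z x : G, Ucl p e m M L ψ z x →
    (∀ (D : Subgroup G) (y : G), DefL p M L ψ D y → Nat.card D ≤ p ^ (e + m) ∧
      ∃ l ∈ L, l * z * l⁻¹ ∈ D ∧ ∀ d ∈ D, l * z * l⁻¹ * d = d * (l * z * l⁻¹)) ∧
    ∃ (D : Subgroup G) (y : G), DefL p M L ψ D y ∧ z ∈ D ∧ (∀ d ∈ D, z * d = d * z) ∧ Nat.card D ≤ p ^ (e + m)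

/-- **NUH** (short; from SBI, DCM, CLS, SYL, NEG). Heredity. Proof: `cc η (cls L (z x))` is not `InM` (SBI). DCM (1) for `K`, `η`, `cls L (z x)` (invariant under `K ≤ L`): `w` with `cls L (z x) w ≠ 0` and `cc η (cls K w)` not `InM`, so `w ∈ K` (CLS), `w = l (z x) l⁻¹ = (l z l⁻¹) (l x l⁻¹)`, `l ∈ L`. `zm`, `xm`: NEG (4). `cd`: `Cz K w ≤ Cz L w` (SYL (4)), and
`pp p (Cz L w) = pp p (Cz L (z x))` (SYL (6)). -/
def NUH_stmt : Prop :=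
  ∀ (p e m : ℕ) (M : Ideal (integralClosure ℤ ℂ)), Setup p M → ∀ (G : Type) [Group G] [Finite G] (L K : Subgroup G), K ≤ L →
    ∀ η ∈ IrrOn K, ∀ (ψ : G → ℂ) (z x : G), SB M L η ψ → Ucl p e m M L ψ z x →
    ∃ l ∈ L, Ucl p e m M K η (l * z * l⁻¹) (l * x * l⁻¹)

/-- **NUB** (short; from SBI, CJG, SYL, NEG). Unit classes of the same block, and conjugation. (1) SBI. (2) CJG (3), (9), SYL (5). (3) (2) for `g = l` (`cjS l L = L`, `cjF l ψ = ψ`), or directly: `cls L (l y l⁻¹) = cls L y` (CLS), SYL (6). -/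
def NUB_stmt : Prop :=
  ∀ (p e m : ℕ) (M : Ideal (integralClosure ℤ ℂ)), Setup p M → ∀ (G : Type) [Group G] [Finite G] (L : Subgroup G) (ψ : G → ℂ) (z x : G),
    Ucl p e m M L ψ z x → (∀ ψ' : G → ℂ, SB M L ψ ψ' → Ucl p e m M L ψ' z x) ∧
    (∀ g : G, Ucl p e m M (cjS g L) (cjF g ψ) (g * z * g⁻¹) (g * x * g⁻¹)) ∧
    ∀ l ∈ L, Ucl p e m M L ψ (l * z * l⁻¹) (l * x * l⁻¹)

/-- **NUE** (short; from NUD, DEX, NEC, NEG). Two unit classes of the same block have conjugate groups `E`. Proof: `(D, y)` from DEX; NUD: `k z k⁻¹`, `k' z' k'⁻¹ ∈ D` central in `D`, `|D| ≤ p ^ (e + m)`; NEC: `Eg (k' z' k'⁻¹) = Eg (k z k⁻¹)`; NEG (1). -/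
def NUE_stmt : Prop :=
  ∀ (p e m : ℕ) (M : Ideal (integralClosure ℤ ℂ)), Setup p M → m < e → ∀ (G : Type) [Group G] [Finite G] (K : Subgroup G),
    ∀ η ∈ IrrOn K, ∀ z x z' x' : G, Ucl p e m M K η z x → Ucl p e m M K η z' x' → ∃ k ∈ K, Eg p e z' = cjS k (Eg p e z)

/-- **NUG** (short; from DEX, CNTL, NUD, NEC, NEG). The same for an element `w` of order `p ^ e` of a local subgroup `D'`. Proof: `(D, y)` from DEX for `H`, `φ`; CNTL (`L := H`, `R := D'`, `η := θ`): `l ∈ H`, `l D' l⁻¹ ≤ D`, so `l w l⁻¹ ∈ D` has order `p ^ e`; NUD: `l' z l'⁻¹ ∈ D` central, `|D| ≤ p ^ (e + m)`; NEC: `Eg (l w l⁻¹) = Eg (l' z l'⁻¹)`. -/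
def NUG_stmt : Prop :=
  ∀ (p e m : ℕ) (M : Ideal (integralClosure ℤ ℂ)), Setup p M → m < e → ∀ (G : Type) [Group G] [Finite G] (H D' : Subgroup G),
    IsPGroup p D' → D' ≤ H → ∀ φ ∈ IrrOn H, ∀ θ ∈ IrrOn (H ⊓ cz D'), SB M H θ φ → ∀ w ∈ D', orderOf w = p ^ e →
    ∀ z x : G, Ucl p e m M H φ z x → ∃ h ∈ H, Eg p e z = cjS h (Eg p e w)

/-- **NUF** (short to medium; from NUE, SBI, DCM, CLS, CCI, SYL, NEG). The unit class goes up from `H = L ⊓ nz E` to `L`. Proof: `Cz L (z x) ≤ nz E` (NEG (4)), so `Cz L (z x) = Cz H (z x)`: this gives `cd`. `f = cls L (z x) - cls H (z x)` is invariant under `H`. CLAIM: `f w ≠ 0` implies that `cc η (cls H w)` is `InM`. We may assume `w ∈ H` (CLS). `w = l (z x) l⁻¹`, `l ∈ L`. If `cc η (cls H w)` is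
not `InM` then `Ucl p e m M H η (l z l⁻¹) (l x l⁻¹)` (`pp p (Cz H w) ≤ pp p (Cz L w) = pp p (Cz L (z x))`), so by NUE `cjS l E = Eg (l z l⁻¹) = cjS h E`, `h ∈ H ≤ nz E`: `l ∈ nz E`, `l ∈ H`, and `f w = 0`. By DCM (1) `cc η f` is `InM`, so (CCI (1)) `cc η (cls L (z x))` is not `InM`; SBI for `SB M L η ψ`. -/
def NUF_stmt : Prop :=
  ∀ (p e m : ℕ) (M : Ideal (integralClosure ℤ ℂ)), Setup p M → m < e → ∀ (G : Type) [Group G] [Finite G] (L E : Subgroup G),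
    ∀ η ∈ IrrOn (L ⊓ nz E), ∀ z x : G, Ucl p e m M (L ⊓ nz E) η z x → Eg p e z = E → ∀ ψ : G → ℂ, SB M L η ψ →
    Ucl p e m M L ψ z x

/-- **NFV** (short to medium; PORT of FOV3 (1), grep `theorem FOV3`; from C5a, C3, CCJ, B2). Relative form of FOV. Proof: let `CF N z`, integral values, `z'` its restriction to `K = N ⊓ cz P` (invariant under `N`, as `N ≤ nz P`). `z - z'` vanishes on `cz P`, so `cc φ z ≡ cc φ z'` (C5a for `P`, `L := N`); `cc φ z' = cc ψ z'` by `OverE` (as in FOV3), and `cc ψ z' = cc ψ z`. -/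
def NFV_stmt : Prop :=
  ∀ (p : ℕ) (M : Ideal (integralClosure ℤ ℂ)), Setup p M → ∀ (G : Type) [Group G] [Finite G] (P N : Subgroup G),
    IsPGroup p P → P ≤ N → N ≤ nz P → ∀ φ ∈ IrrOn N, ∀ ψ ∈ IrrOn (N ⊓ cz P), ∀ n : ℕ, 0 < n → OverE (N ⊓ cz P) N φ ψ n →
    SB M N φ ψ

/-- **NUX** (short; from CFA, NFV, EXB, TRN, NEG). The induced block exists. Proof: `H = L ⊓ nz E`, `K = H ⊓ cz E = L ⊓ cz E` (NEG (5)), `E ≤ H`. CFA (1) for `K ≤ H ≤ nz K`: `ψ₀ ∈ IrrOn K`, `OverE K H η ψ₀ n`, `n > 0`. NFV: `SB M H η ψ₀`. EXB for `L`, `Q = E`: `ψ ∈ IrrOn L`, `SB M L ψ₀ ψ`. TRN: `SB M L η ψ₀`, so `SB M L η ψ`. -/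
def NUX_stmt : Prop :=
  ∀ (p e m : ℕ) (M : Ideal (integralClosure ℤ ℂ)), Setup p M → ∀ (G : Type) [Group G] [Finite G] (L E : Subgroup G),
    ∀ η ∈ IrrOn (L ⊓ nz E), ∀ z x : G, Ucl p e m M (L ⊓ nz E) η z x → Eg p e z = E → ∃ ψ ∈ IrrOn L, SB M L η ψ

/-- **NXU** (short; from NUD, DGL, EXB, TRN, NUH, NUG, NEC, NEG). Existence of the block of `L ⊓ nz E`. Proof: `(D, y)` from NUD: `DefL p M L ψ D y`, `z ∈ D` central, `|D| ≤ p ^ (e + m)`. `E = Eg z ≤ D`; `D ≤ H = L ⊓ nz E` (`D` commutes with `z`, NEG (5)), `cz D ≤ nz E` (NEC), so `H ⊓ cz D = L ⊓ cz D`. DGL: `θ ∈ IrrOn (L ⊓ cz D)`, `SB M L θ ψ`. EXB for `L := H`, `Q := D`: `η ∈ IrrOn H`,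
`SB M H θ η`; TRN: `SB M L η ψ`. NUH: `Ucl p e m M H η z₁ x₁`; NUG (`D' := D`, `φ := η`, `w := z`): `Eg z₁ = cjS h E = E`, `h ∈ H ≤ nz E`. -/
def NXU_stmt : Prop :=
  ∀ (p e m : ℕ) (M : Ideal (integralClosure ℤ ℂ)), Setup p M → m < e → ∀ (G : Type) [Group G] [Finite G] (L : Subgroup G),
    ∀ ψ ∈ IrrOn L, ∀ z x : G, Ucl p e m M L ψ z x → ∃ η : G → ℂ, η ∈ BE p e m M L (L ⊓ nz (Eg p e z)) (Eg p e z) ψ

/-! ## 3. First main theorem: only one block of `L ⊓ nz E` -/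

/-- **NQD** (short to medium; from NDG, NUF, DEX, DGL, CNTL, TRN, CJG, NEC, NEG). A defect group `D` of the block of `η` in `H = L ⊓ nz E` is a defect group of the block of `ψ` in `L`. Proof: NDG for `H`: `cc η (cls H (z y))` is not `InM`, so `Ucl p e m M H η z y` (`Cz H (z y) ≤ Cz H y` and `pp p (Cz H y) = |D| ≤ p ^ (e + m)`; `y` commutes with `D`; NEG (4), SYL). NUF: `Ucl p e m M L ψ z y`.
`(D_B, x_B)` from DEX for `L`, `ψ`: `|D_B| ≤ pp p (Cz L (z y))` (`min`) `= pp p (Cz H (z y)) ≤ |D|` (NEG (4): `Cz L (z y) ≤ nz E`). DGL for `H`, `η`: `θ ∈ IrrOn (H ⊓ cz D)`, `SB M H θ η`; `H ⊓ cz D = L ⊓ cz D` (NEC: `cz D ≤ nz E`), `SB M L θ ψ` (TRN); CNTL (`R := D`): `l ∈ L`, `l D l⁻¹ ≤ D_B`, so `cjS l D = D_B`.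
CJG (4) for `g = l⁻¹` (`cjF l⁻¹ ψ = ψ`, `cjS l⁻¹ L = L`). -/
def NQD_stmt : Prop :=
  ∀ (p e m : ℕ) (M : Ideal (integralClosure ℤ ℂ)), Setup p M → m < e → ∀ (G : Type) [Group G] [Finite G] (L E : Subgroup G),
    ∀ η ∈ IrrOn (L ⊓ nz E), ∀ ψ ∈ IrrOn L, SB M L η ψ → ∀ (D : Subgroup G) (y : G), DefL p M (L ⊓ nz E) η D y →
    ∀ z ∈ D, (∀ d ∈ D, z * d = d * z) → orderOf z = p ^ e → Nat.card D ≤ p ^ (e + m) → Eg p e z = E →
    ∃ y' : G, DefL p M L ψ D y'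

/-- **NQB** (short; from CFX, SYL, CLS). Proof: `Q ≥ D` a Sylow `p`-subgroup of `Cz H u` (SYL (2); `D ≤ Cz H u`). By CFX for `R = Q` (`u ∈ cz Q`; `x ↦ cls H y x * f (x⁻¹ u)` is invariant under `Q ≤ H`) `cv (cls H y) f u` is modulo `InM` the sum over the `x ∈ cz Q`. If it is not `InM` there is `x ∈ cz Q` with `cls H y x ≠ 0`, `x = h y h⁻¹`, `Q ≤ Cz H x`,
so `|Q| ≤ pp p (Cz H x) = pp p (Cz H y) = |D|`, and `|D| ≤ |Q| = pp p (Cz H u)`. (Compare the proof of DGW.) -/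
def NQB_stmt : Prop :=
  ∀ (p : ℕ) (M : Ideal (integralClosure ℤ ℂ)), Setup p M → ∀ (G : Type) [Group G] [Finite G] (H D : Subgroup G), IsPGroup p D →
    D ≤ H → ∀ y ∈ H, Nat.card D = pp p (Cz H y) → ∀ f : G → ℂ, CF H f → (∀ x, IntAt M (f x)) → ∀ u ∈ H ⊓ cz D,
    InM M (cv (cls H y) f u) ∨ Nat.card D = pp p (Cz H u)

/-- **NQC** (medium; from NCJ, SYL, DUN, DCM, CLS, CCI). Extension of a class function `g` of `H` supported on classes with defect group `D` to `L`. Proof. Call `u ∈ H` good if `D ≤ Cz H u` and `|D| = pp p (Cz H u)`. (1) `u` good: `|D| = pp p (Cz L u)`: otherwise let `P > D` be a Sylow `p`-subgroup of `Cz L u` containing `D` (SYL (2)); `P ⊓ nz D > D` (normalisers grow in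
`p`-groups: `IsPGroup` / `NormalizerCondition`), `P ⊓ nz D ≤ L ⊓ nz D ≤ H`, so it is a `p`-subgroup of `Cz H u` larger than `D`. (2) `u` good, `w ∈ H` with `D ≤ Cz H w`, `w = l u l⁻¹`, `l ∈ L`: NCJ for `L`, `D`, `u`: `w = n u n⁻¹` with `n ∈ L ⊓ nz D ≤ H`: `w` and `u` are conjugate in `H`. So two elements with `g ≠ 0` (conjugate in `H` to good ones) which are conjugate in `L`
are conjugate in `H`, and `F x = g (l x l⁻¹)` for any `l ∈ L` with `g (l x l⁻¹) ≠ 0`, `F x = 0` if there is none, is well defined; `CF L F`, values `IntAt`. (3) for `w ∈ H` with `g w = 0`, `F w ≠ 0` the number `cc η (cls H w)` is `InM`: otherwise DUN (2): `D ≤ Cz H (h w h⁻¹)` for some `h ∈ H`, and by (2) `w` is conjugate in `H` to an element with `g ≠ 0`.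
So for `f = F - g` (invariant under `H`) for every `w` `f w = 0` or `cc η (cls H w)` is `InM` (outside `H` it is `0`), and DCM (1), CCI (1) give the claim. -/
def NQC_stmt : Prop :=
  ∀ (p : ℕ) (M : Ideal (integralClosure ℤ ℂ)), Setup p M → ∀ (G : Type) [Group G] [Finite G] (L H D : Subgroup G), H ≤ L →
    IsPGroup p D → D ≤ H → L ⊓ nz D ≤ H → ∀ g : G → ℂ, CF H g → (∀ x, IntAt M (g x)) →
    (∀ u, g u ≠ 0 → ∃ h ∈ H, D ≤ Cz H (h * u * h⁻¹) ∧ Nat.card D = pp p (Cz H (h * u * h⁻¹))) →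
    ∃ F : G → ℂ, CF L F ∧ (∀ x, IntAt M (F x)) ∧ ∀ η ∈ IrrOn H, ∀ y : G, DefL p M H η D y → InM M (cc η g - cc η F)

/-- **NQ5** (short to medium; from NQB, NQC, DGW, CCI, SBI, CLS, CVF). Two blocks of `H` with the same defect group `D`, `L ⊓ nz D ≤ H`, and the same induced block of `L` are equal. Proof: `k = cls H y`. CLAIM (a): `InM (cc η g - cc η' g)` for `g` as in NQC: `cc η g ≡ cc η F ≡ cc ψ F ≡ cc η' F ≡ cc η' g` (SBI (1) for `SB M L η ψ`, `SB M L η' ψ`; `CF L F`). (b) `k` itself is such a `g`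
(`DefL`). (c) let `CF H f`, integral values, `w = cv k f`; `g u = w u` if there is `h ∈ H` with `D ≤ Cz H (h u h⁻¹)`, `|D| = pp p (Cz H (h u h⁻¹))`, and `g u = 0` otherwise. On `H ⊓ cz D` all values of `w - g` are `InM` (NQB), so DGW for `η` and for `η'` gives `InM (cc η (w - g))`, `InM (cc η' (w - g))`; with (a) `InM (cc η w - cc η' w)`. `cc η w = cc η k * cc η f` (CCI (2)), the same for `η'`;
so `cc η k * (cc η f - cc η' f)` is `InM`, `cc η k` is not, so `cc η f - cc η' f` is `InM` (`InM.or`), and `Mcong` (both are integral: C3; `InM.mcong`). -/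
def NQ5_stmt : Prop :=
  ∀ (p : ℕ) (M : Ideal (integralClosure ℤ ℂ)), Setup p M → ∀ (G : Type) [Group G] [Finite G] (L H D : Subgroup G), H ≤ L →
    L ⊓ nz D ≤ H → ∀ η ∈ IrrOn H, ∀ η' ∈ IrrOn H, ∀ y y' : G, DefL p M H η D y → DefL p M H η' D y' →
    ∀ ψ : G → ℂ, SB M L η ψ → SB M L η' ψ → SB M H η η'

/-- **NQU** (short to medium; from NQD, NQ5, NUD, NUB, DUN, CJG, NEC, NEG, TRN). Uniqueness. Proof: `H = L ⊓ nz E`. Let `η, η' ∈ BE`. NUD for `H`: `DefL p M H η D y`, `z ∈ D` central of order `p ^ e`, `Eg z = E`, `|D| ≤ p ^ (e + m)`; the same with `'`. NQD: `D` and `D'` are defect groups of `ψ` in `L`; DUN (1): `l ∈ L` with `cjS l D = D'`. `l z l⁻¹ ∈ D'` has order `p ^ e`, so by NEC for `D'` and `z'`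
`cjS l E = Eg (l z l⁻¹) = Eg z' = E`: `l ∈ nz E`, `l ∈ H`. CJG (4) for `g = l`: `DefL p M H η D' (l y l⁻¹)` (`cjF l η = η`, `cjS l H = H`). `L ⊓ nz D' ≤ H` (NEC: `nz D' ≤ nz E`). NQ5: `SB M H η η'`. So `BE ⊆ Bl M H η`; conversely `η' ∈ Bl M H η`: `SB M L η' η` (TRN), so `SB M L η' ψ`, and NUB (1). -/
def NQU_stmt : Prop :=
  ∀ (p e m : ℕ) (M : Ideal (integralClosure ℤ ℂ)), Setup p M → m < e → ∀ (G : Type) [Group G] [Finite G] (L E : Subgroup G),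
    ∀ ψ ∈ IrrOn L, ∀ η ∈ BE p e m M L (L ⊓ nz E) E ψ, BE p e m M L (L ⊓ nz E) E ψ = Bl M (L ⊓ nz E) η ∧
      lE p e m M L (L ⊓ nz E) E ψ = Le p M (L ⊓ nz E) η

/-! ## 4. Block T: transfer to subgroups as types, and the toggle -/

/-- **NTK** (short; from TR2, TR3, NEG). Transfer of unit classes to the type `N`. Proof: `cls (H.subgroupOf N) (z * x) = rN N (cls H (z x))` (TR2 (3)), `cc` by TR2 (1); `Cz` by TR3; orders by `Subgroup.orderOf_coe`. -/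
def NTK_stmt : Prop :=
  ∀ (p e m : ℕ) (M : Ideal (integralClosure ℤ ℂ)) (G : Type) [Group G] [Finite G] (N H : Subgroup G), H ≤ N →
    ∀ η : G → ℂ, (∀ x, x ∉ N → η x = 0) → ∀ z x : N, Ucl p e m M (H.subgroupOf N) (rN N η) z x ↔ Ucl p e m M H η (z : G) (x : G)

/-- **NTI** (short to medium; from NTK, TR1, TR2, TR3, TR4, TRE of L5, TPR, NEG, B2). The claim for the type `N` in terms of functions on `G`. Proof: `rN N φ ∈ IrrOn (N.subgroupOf N) = IrrOn ⊤ = Irr N`; `MNc` for `rN N φ`, `⟨z, _⟩`, `⟨x, _⟩` (NTK, `⊤ = N.subgroupOf N`). Left side: TRE. Right side: `nz (Eg p e ⟨z, _⟩) = (N ⊓ nz (Eg p e z)).subgroupOf N` (TR3, NEG (7); `Subgroup.inf_subgroupOf_left`),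
and `η ↦ rN N η` is a bijection from `BE p e m M N (N ⊓ nz E) E φ` onto `BE p e m M ⊤ .. (rN N φ)` (TR1, TR2 (2), NTK, NEG (7): `Eg p e y = E.subgroupOf N ↔ Eg p e (y : G) = E` as both are `≤ N`), `EE` by TR4. -/
def NTI_stmt : Prop :=
  ∀ (p e m : ℕ) (M : Ideal (integralClosure ℤ ℂ)), Setup p M → ∀ (G : Type) [Group G] [Finite G] (N : Subgroup G), MNc p e m M N →
    ∀ φ ∈ IrrOn N, ∀ z x : G, Ucl p e m M N φ z x →
    Le p M N φ = lE p e m M N (N ⊓ nz (Eg p e z)) (Eg p e z) φ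

/-- **NBH** (short; from BZN (`helper70/LZ/SpecW`), NTK, TR1, TRE, TPR). The bound for subgroups. Proof: in the type `N`: `UZ p M (rN N φ) ⟨z, _⟩ ⟨x, _⟩ e (p ^ m)` (NTK; `p ^ (e + m) = p ^ m * p ^ e`), BZN: `l ≤ p * (p ^ m) ^ 2`; `LL p M χ ⊤ = Le p M ⊤ χ` (`Blk M χ ⊤ = Bq M ⊤ ⊤ χ = Bl M ⊤ χ`, TPR), TRE. -/
def NBH_stmt : Prop :=
  ∀ (p e m : ℕ) (M : Ideal (integralClosure ℤ ℂ)), Setup p M → p ≠ 2 → 1 ≤ e → ∀ (G : Type) [Group G] [Finite G] (N : Subgroup G),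
    ∀ φ ∈ IrrOn N, ∀ z x : G, Ucl p e m M N φ z x → ∃ l : ℕ, Le p M N φ = l ∧ 1 ≤ l ∧ l ≤ p ^ (2 * m + 1)

/-- **NBC** (short; from CJG, QCJ, NUB, NEG, B2). Conjugation by `l ∈ L`. Proof: `η ↦ cjF l η` is a bijection from `BE p e m M L K E ψ` onto `BE p e m M L (cjS l K) (cjS l E) ψ` (CJG (1), (6): `SB M L (cjF l η) η`; NUB (2); NEG (1); inverse `cjF l⁻¹`), `EE` by QCJ (1). Second item: if `SB M L φ ψ` the sets for `ψ` and `φ` are equal. Third: `BC` (NUB (1), TRN). -/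
def NBC_stmt : Prop :=
  ∀ (p e m : ℕ) (M : Ideal (integralClosure ℤ ℂ)), Setup p M → ∀ (G : Type) [Group G] [Finite G] (L K E : Subgroup G), K ≤ L → ∀ ψ : G → ℂ,
    (∀ l ∈ L, lE p e m M L (cjS l K) (cjS l E) ψ = lE p e m M L K E ψ) ∧
    (∀ φ : G → ℂ, SB M L φ ψ → BE p e m M L K E φ = BE p e m M L K E ψ) ∧ BC M K (BE p e m M L K E ψ)

/-- **NTC** (short to medium; from NUF, NUE, NBC, NEG, FEQ). Sum over all `E'`. Proof: `E = Eg p e z`. If the term for `E'` is not `0` then there is `η ∈ BE p e m M L (L ⊓ nz E') E' ψ`; NUF: `Ucl p e m M L ψ z' x'` with `Eg z' = E'`; NUE: `E' = cjS l E`, `l ∈ L`. For `E' = cjS l E`: `L ⊓ nz E' = cjS l (L ⊓ nz E)`, the same order, and the same `lE` (NBC (1)). The number of the `E'` is `|L| / |L ⊓ nz E|`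
(orbit: the fibres of `l ↦ cjS l E`, `l ∈ L`, are the cosets of `L ⊓ nz E`). -/
def NTC_stmt : Prop :=
  ∀ (p e m : ℕ) (M : Ideal (integralClosure ℤ ℂ)), Setup p M → m < e → ∀ (G : Type) [Group G] [Finite G] (L : Subgroup G),
    ∀ ψ ∈ IrrOn L, ∀ z x : G, Ucl p e m M L ψ z x →
    ∑ᶠ E' : Subgroup G, (Nat.card (L ⊓ nz E' : Subgroup G) : ℂ) * lE p e m M L (L ⊓ nz E') E' ψ =
      (Nat.card L : ℂ) * lE p e m M L (L ⊓ nz (Eg p e z)) (Eg p e z) ψ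

/-- **NPA** (short; pure). Partition. Proof: `W a = ∑_{a' ∈ A, r a a'} w a' ≠ 0`, constant on the classes of `r`. `∑_{b ∈ B} v b = ∑_b v b * ∑_{a ∈ A, S b a} w a / W a` (for `b` choose `a₀ ∈ A` with `S b a₀`: the `a` with `S b a` are the `a` with `r a₀ a`, `W a = W a₀`, so the inner sum is `1`) `= ∑_{a ∈ A} (w a / W a) * ∑_{b ∈ B, S b a} v b = ∑_a (w a / W a) * c * W a`. -/
def NPA_stmt : Prop :=
  ∀ (α β : Type) (A : Set α) (B : Set β), A.Finite → B.Finite → ∀ (w : α → ℂ) (v : β → ℂ) (c : ℂ) (r : α → α → Prop) (S : β → α → Prop),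
    (∀ b ∈ B, ∃ a ∈ A, S b a) → (∀ a, r a a) → (∀ a a', r a a' → r a' a) → (∀ a a' a'', r a a' → r a' a'' → r a a'') →
    (∀ b ∈ B, ∀ a ∈ A, ∀ a' ∈ A, S b a → (S b a' ↔ r a a')) →
    (∀ a ∈ A, ∑ᶠ a' ∈ {a' | a' ∈ A ∧ r a a'}, w a' ≠ 0) →
    (∀ a ∈ A, ∑ᶠ b ∈ {b | b ∈ B ∧ S b a}, v b = c * ∑ᶠ a' ∈ {a' | a' ∈ A ∧ r a a'}, w a') →
    ∑ᶠ b ∈ B, v b = c * ∑ᶠ a ∈ A, w a

/-- **NLC** (medium; from NPA, NTI, NTC, NUH, NUX, NBC, TRN, TPR, QEI or LBN, FBC, B2). The blocks of the subgroup `N`. Proof: NPA with `A = Blk M χ N = {φ ∈ IrrOn N | SB M ⊤ φ χ}` (TPR), `w φ = EE p N φ φ`, `r φ φ' = SB M N φ φ'`, `B = {(E', η) | η ∈ BE p e m M ⊤ (N ⊓ nz E') E' χ}` (in `Subgroup G × (G → ℂ)`, finite: B2), `v (E', η) = |N ⊓ nz E'| * EE p (N ⊓ nz E') η η`, `S (E', η) φ = SB M N η φ`, `c = |N|`.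
(1) NUX for `L := N`: `φ ∈ IrrOn N`, `SB M N η φ`; `SB M ⊤ η φ` (TRN), so `SB M ⊤ φ χ`. (2) for `φ ∈ A`: `{φ' ∈ A | SB M N φ φ'} = Bl M N φ` (TRN), its sum is `Le p M N φ`, not `0` (it is `≥ 1`: LBN with FBC; or QEI (4)). (3) NUH (`L = ⊤`, `K = N`): `Ucl p e m M N φ z' x'`; `{(E', η) ∈ B | SB M N η φ}` is the set of the `(E', η)` with `η ∈ BE p e m M N (N ⊓ nz E') E' φ` (TRN), so the sum is that of NTC for
`L := N`, `= |N| * lE p e m M N (N ⊓ nz (Eg z')) (Eg z') φ = |N| * Le p M N φ` (NTI). The sum over `B` is the iterated sum (`finsum_mem` over pairs; finite sets). -/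
def NLC_stmt : Prop :=
  ∀ (p e m : ℕ) (M : Ideal (integralClosure ℤ ℂ)), Setup p M → m < e → ∀ (G : Type) [Group G] [Finite G],
    ∀ χ ∈ Irr G, ∀ z x : G, Ucl p e m M (⊤ : Subgroup G) χ z x → ∀ N : Subgroup G, MNc p e m M N →
    (Nat.card N : ℂ) * LL p M χ N =
      ∑ᶠ E' : Subgroup G, (Nat.card (N ⊓ nz E' : Subgroup G) : ℂ) * lE p e m M (⊤ : Subgroup G) (N ⊓ nz E') E' χ

/-- **NTG** (short to medium; pure; PORT of QPR, grep `theorem QPR`, with the smallest term `R` in place of `⊥`, `L = ⊤`, `Y = E`, `D = nz E`, `x = 1`). Toggle. Proof: for a chain `C` let `P` be the largest term with `¬ E ≤ P` (exists: `R`). Toggle `P ⊔ E` (a `p`-group since `E ≤ nrm C ≤ nz P`). The terms which contain `E` contain `P ⊔ E`; `P ⊔ E ≠ R`. `E` normalises `P ⊔ E`,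
and an element of `nz E ⊓ nz P` normalises `P ⊔ E`, so `E ≤ nrm C` and `nz E ⊓ nrm C` do not change. -/
def NTG_stmt : Prop :=
  ∀ (Γ : Type) [Group Γ] [Finite Γ] (p : ℕ) [Fact p.Prime] (R E : Subgroup Γ) (F : Subgroup Γ → ℂ), IsPGroup p E → ¬ E ≤ R →
    ∑ᶠ C ∈ {C : Finset (Subgroup Γ) | PCh p ⊤ R C ∧ E ≤ nrm C}, (-1 : ℂ) ^ (C.card + 1) * F (nz E ⊓ nrm C) = 0

/-- **NTM** (medium; from NTG, NTC, NUH, NUE, NEG, FEQ). The toggle for all `E'`. Proof: `F_{E'} K = |K| * lE p e m M ⊤ K E' χ`; `nrm C ⊓ nz E' = nz E' ⊓ nrm C`. Exchange the finite sums and fix `E'`. (1) If `F_{E'} K ≠ 0` for some `K` then there is `η ∈ BE p e m M ⊤ K E' χ` with a unit class `z' x'`, `Eg z' = E' ≤ K` (NEG (2)), `E'` is a `p`-group; NUH and NUE for `K`: `E' = cjS g (Eg z)` for some `g`, so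
`¬ E' ≤ R` (`R` is normal). (2) So for `E'` with some nonzero term: the terms with `¬ E' ≤ nrm C` are `0`, and the sum over the `C ≠ {R}` with `E' ≤ nrm C` is by NTG minus the term of `C = {R}`: `nrm {R} = nz R = ⊤`, `PCh p ⊤ R {R}`, sign `(-1) ^ 2`: it is `- F_{E'} (nz E')`. (3) `∑_{E'} F_{E'} (nz E') = |G| * lE p e m M ⊤ (nz E) E χ`: NTC for `L = ⊤` (`⊤ ⊓ nz E' = nz E'`). -/
def NTM_stmt : Prop :=
  ∀ (p e m : ℕ) (M : Ideal (integralClosure ℤ ℂ)), Setup p M → m < e → ∀ (G : Type) [Group G] [Finite G],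
    ∀ χ ∈ Irr G, ∀ z x : G, Ucl p e m M (⊤ : Subgroup G) χ z x → ∀ R : Subgroup G, IsPGroup p R → nz R = ⊤ → ¬ Eg p e z ≤ R →
    ∑ᶠ C ∈ {C : Finset (Subgroup G) | PCh p ⊤ R C ∧ C ≠ {R}}, (-1 : ℂ) ^ (C.card + 1) *
      ∑ᶠ E' : Subgroup G, (Nat.card (nrm C ⊓ nz E' : Subgroup G) : ℂ) * lE p e m M (⊤ : Subgroup G) (nrm C ⊓ nz E') E' χ =
      - ((Nat.card G : ℂ) * lE p e m M (⊤ : Subgroup G) (nz (Eg p e z)) (Eg p e z) χ)

/-- **NTN** (short to medium; from NTM, NLC, FNO of `helper58/FI/SpecC`, LBN (`lb_eq_LL`), TPR). The chain sum. Proof: FNO (`L = N = ⊤`, `P = R`, `g N = |N| * lb p M χ N`, `⊤ ⊓ nrm C = nrm C`), cast to `ℂ` (`lb_eq_LL`): the sum over the normal chains is the sum over `{C | PCh p ⊤ R C}` (`cSum`). The term of `C = {R}` is `|G| LL ⊤` (`nz R = ⊤`), `LL p M χ ⊤ = Le p M ⊤ χ` (TPR: `Blk M χ ⊤ = Bq M ⊤ ⊤ χ`).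
For `C ≠ {R}`: `nrm C ≠ ⊤` (`C` contains a `p`-subgroup `Q ≠ R`, `R ≤ Q`; if `nrm C = ⊤` then `Q` is normal in `G` and `Q ≤ R` by `IsOp`), NLC with the hypothesis; NTM. -/
def NTN_stmt : Prop :=
  ∀ (p e m : ℕ) (M : Ideal (integralClosure ℤ ℂ)), Setup p M → m < e → ∀ (G : Type) [Group G] [Finite G],
    ∀ χ ∈ Irr G, ∀ z x : G, Ucl p e m M (⊤ : Subgroup G) χ z x → ∀ R : Subgroup G, IsOp p (⊤ : Subgroup G) R → ¬ Eg p e z ≤ R →
    (∀ N : Subgroup G, N ≠ ⊤ → MNc p e m M N) →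
    ∑ᶠ C ∈ {C : Finset (Subgroup G) | NCh p ⊤ R C}, (-1 : ℂ) ^ (C.card + 1) * ((Nat.card (nrm C) : ℂ) * LL p M χ (nrm C)) =
      (Nat.card G : ℂ) * (Le p M (⊤ : Subgroup G) χ - lE p e m M (⊤ : Subgroup G) (nz (Eg p e z)) (Eg p e z) χ)

/-! ## 5. Block D: divisibility -/

/-- **NQK** (short to medium; from KMG, KPR or direct, CLS, TPR, KG1, C3). Unit classes of the quotient by an abelian normal `p`-subgroup `R₁` with `z ^ p ^ (e - 1) ∉ R₁`. Proof: `g = z x`. KMG: `m'` with `omega (f ∘ π) g = m' * omega f (π g)` for all `f`. `omega (χ' ∘ π) g` is not `InM` (`Induces`, TPR, SBI, CLS), `omega χ' (π g)` is integral, so neither `m'` nor `omega χ' (π g)` is `InM`, and `p ∤ m'`.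
For `f = 1`: `|cls g| = m' * |cls (π g)|`, so `|C(π g)| * |R₁| = m' * |C(g)|` (`|G| = |R₁| |Gb|`, KG1; class lengths; `Cz ⊤ y` is the centraliser, TPR), hence `pp p (Cz ⊤ (π g)) ≤ pp p (Cz ⊤ g)`. `orderOf (π z) = p ^ e`: it divides `p ^ e`, and `(π z) ^ p ^ (e - 1) ≠ 1` (`Qn.ker`). `PReg p (π x)`: `orderOf_map_dvd`. -/
def NQK_stmt : Prop :=
  ∀ (p e m : ℕ) (M : Ideal (integralClosure ℤ ℂ)), Setup p M → 1 ≤ e → ∀ (G Gb : Type) [Group G] [Finite G] [Group Gb] [Finite Gb]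
    (R₁ : Subgroup G) (π : G →* Gb), Qn p R₁ π → ∀ χ ∈ Irr G, ∀ z x : G, Ucl p e m M (⊤ : Subgroup G) χ z x → z ^ p ^ (e - 1) ∉ R₁ →
    ∀ χ' ∈ Irr Gb, Induces M (fun g => χ' (π g)) χ → Ucl p e m M (⊤ : Subgroup Gb) χ' (π z) (π x)

open Classical in
/-- **NKC** (short to medium; from KG1; PORT of KCH, grep `theorem KCH`, with smallest term `R'` in place of `⊥`). `Cb ↦ {Q.comap π | Q ∈ Cb}`. Last item: `IsOp`: if `Q` is a `p`-subgroup of `Gb` normalised by `Gb` then `Q.comap π` is a normal `p`-subgroup of `G`, so `≤ R`, and `Q ≤ R.map π`. -/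
def NKC_stmt : Prop :=
  ∀ (p : ℕ) [Fact p.Prime] (G Gb : Type) [Group G] [Finite G] [Group Gb] [Finite Gb] (R₁ : Subgroup G)
    (π : G →* Gb), Qn p R₁ π →
    (∀ R' : Subgroup Gb, Set.BijOn (fun Cb : Finset (Subgroup Gb) => Cb.image (Subgroup.comap π)) {Cb | NCh p ⊤ R' Cb}
      {C | NCh p ⊤ (R'.comap π) C}) ∧
    (∀ Cb : Finset (Subgroup Gb), (Cb.image (Subgroup.comap π)).card = Cb.card ∧
      (nrm Cb).comap π = nrm (Cb.image (Subgroup.comap π))) ∧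
    ∀ R : Subgroup G, R₁ ≤ R → IsOp p (⊤ : Subgroup G) R → (R.map π).comap π = R ∧ IsOp p (⊤ : Subgroup Gb) (R.map π)

/-- **NKB** (short; from KBL (1), FMX3, C7, C8 of DI, IM of DC; PORT of the second half of KBL, grep `theorem KBL`). Proof: as KBL (2); the existence of `χ' ∈ Irr Gb` with `Induces M f χ'`: if `Cb = {R'}` then `nrm Cb = nz R' = ⊤`, `χ' = f`; otherwise FMX3 (`L = ⊤`, `Z = R'`), C7 and C8. -/
def NKB_stmt : Prop :=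
  ∀ (p : ℕ) (M : Ideal (integralClosure ℤ ℂ)), Setup p M → ∀ (G Gb : Type) [Group G] [Finite G]
    [Group Gb] [Finite Gb] (R₁ : Subgroup G) (π : G →* Gb), Qn p R₁ π → ∀ R' : Subgroup Gb, nz R' = ⊤ →
    ∀ (χ : G → ℂ) (Cb : Finset (Subgroup Gb)), NCh p ⊤ R' Cb → ∀ f ∈ IrrOn (nrm Cb),
      (Induces M (fun g => f (π g)) χ ↔
        ∃ χ' ∈ {χ' : Gb → ℂ | χ' ∈ Irr Gb ∧ Induces M (fun g => χ' (π g)) χ}, Induces M f χ')

/-- **NDX** (NOT A ROW: it is `DVK_dv_stmt` of `helper58/LE/DVK.lean`, proved; repeated here to keep the closure small). -/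
def NDX_stmt : Prop :=
  ∀ (p : ℕ) (M : Ideal (integralClosure ℤ ℂ)), Setup p M → ∀ (G : Type) [Group G] [Finite G],
    IsOp p (⊤ : Subgroup G) ⊥ → ∀ χ ∈ Irr G, ∀ D : Subgroup G, Pool.Agent.MAP.DefectGroup p M χ D → ∀ c : ℕ,
    Pool.Agent.MAPW.CentreOut p c D →
    (p : ℤ) ^ c * Nat.card G ∣ ∑ᶠ C ∈ {C : Finset (Subgroup G) | NCh p ⊤ ⊥ C},
      (-1) ^ (C.card + 1) * ((Nat.card (nrm C) : ℤ) * (lb p M χ (nrm C) : ℤ))

/-- **NDB** (short; from DEX, NUD, NTR, NDX, TPR, CLS). The case `O_p(G) = 1`. Proof: NUD (second item) for `L = ⊤`: `DefL p M ⊤ χ D y`, `z ∈ D` central of order `p ^ e`, `|D| ≤ p ^ (e + m)`; `DefectGroup p M χ D` from `DefL p M ⊤ χ D y` as in KDG5 (`Pool/Agent/*/L5/KDG5.lean`, lemmas `KDG5_index`, `KDG5_syl`). NTR: `CentreOut p (e - m / 2) D`. NDX. -/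
def NDB_stmt : Prop :=
  ∀ (p e m : ℕ) (M : Ideal (integralClosure ℤ ℂ)), Setup p M → m < e → ∀ (G : Type) [Group G] [Finite G], IsOp p (⊤ : Subgroup G) ⊥ →
    ∀ χ ∈ Irr G, ∀ z x : G, Ucl p e m M (⊤ : Subgroup G) χ z x →
    (p : ℤ) ^ (e - m / 2) * Nat.card G ∣ ∑ᶠ C ∈ {C : Finset (Subgroup G) | NCh p ⊤ ⊥ C},
      (-1) ^ (C.card + 1) * ((Nat.card (nrm C) : ℤ) * (lb p M χ (nrm C) : ℤ))

/-- **NDV** (medium; from NDB, NQK, NKC, NKB, KG1, KLE, KIN, KBL, KUN, BCL, IM; PORT of `DV5_gen`, `Pool/Agent/*/L5/DV5.lean` (copy the text, do not import), inside an induction). Proof: strong induction on `|G|`. `R = ⊥`: NDB. `R ≠ ⊥`: `R₁ = R ⊓ cz R` is `≠ ⊥` (the centre of a nontrivial `p`-group), commutative, normal in `G` (`R` is), `R₁ ≤ R`, so `z ^ p ^ (e - 1) ∉ R₁`.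
`Gb = G ⧸ R₁`, `π = QuotientGroup.mk' R₁`, `Qn p R₁ π`, `|Gb| < |G|`, `R' = R.map π`, `R'.comap π = R`, `IsOp p ⊤ R'` (NKC (3)), so `nz R' = ⊤`. `X = {χ' ∈ Irr Gb | Induces M (χ' ∘ π) χ}`. For `χ' ∈ X`: `Ucl p e m M ⊤ χ' (π z) (π x)` (NQK), `(π z) ^ p ^ (e - 1) ∉ R'` (as `z ^ p ^ (e - 1) ∉ R = R'.comap π`), so by induction `p ^ (e - m / 2) |Gb|` divides the sum for `χ'` over the chains `NCh p ⊤ R'`.
KUN for `𝒞 = {Cb | NCh p ⊤ R' Cb}`; then as in `DV5_gen` (NKC, NKB in place of KCH, KBL; `KQ_lb` of `helper48/FI4/KQ.lean` has to be repeated with NKB): the sum for `G` is `|R₁|` times the sum for `BX M X`. -/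
def NDV_stmt : Prop :=
  ∀ (p e m : ℕ) (M : Ideal (integralClosure ℤ ℂ)), Setup p M → m < e → ∀ (G : Type) [Group G] [Finite G],
    ∀ χ ∈ Irr G, ∀ z x : G, Ucl p e m M (⊤ : Subgroup G) χ z x → ∀ R : Subgroup G, IsOp p (⊤ : Subgroup G) R → z ^ p ^ (e - 1) ∉ R →
    (p : ℤ) ^ (e - m / 2) * Nat.card G ∣ ∑ᶠ C ∈ {C : Finset (Subgroup G) | NCh p ⊤ R C},
      (-1) ^ (C.card + 1) * ((Nat.card (nrm C) : ℤ) * (lb p M χ (nrm C) : ℤ))

/-! ## 6. Block F: `E ≤ O_p(G)`, Fong-Reynolds. `R₁` an abelian normal `p`-subgroup of `G`, `K = cz R₁`, `S = TT M R₁ ψ₁` the stabiliser of the block of `ψ₁ ∈ IrrOn K` -/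

/-- **NOP** (short; from C5a, CLS, TPR). A unit class centralises a normal `p`-subgroup. Proof: `cz R` is normal in `G`; if `y ∉ cz R` then `cls ⊤ y` vanishes on `cz R`, and C5a (`P = R`, `L = ⊤ ≤ nz R`) gives `Mcong M (cc χ (cls ⊤ y)) 0`, so `InM`. -/
def NOP_stmt : Prop :=
  ∀ (p : ℕ) (M : Ideal (integralClosure ℤ ℂ)), Setup p M → ∀ (G : Type) [Group G] [Finite G],
    ∀ χ ∈ Irr G, ∀ R : Subgroup G, IsPGroup p R → nz R = ⊤ → ∀ y : G, ¬ InM M (cc χ (cls (⊤ : Subgroup G) y)) → y ∈ cz R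

/-- **NFA** (short; from CFA, NFV or FOV3, NUH, NUB, CJG, TPR). A character `ψ₁` of `K = cz R₁` under the block. Proof: CFA (1) for `K ≤ ⊤ ≤ nz K`: `ψ₀`, `OverE K ⊤ χ ψ₀ n`; NFV (`P = R₁`, `N = ⊤`, `⊤ ⊓ cz R₁`): `SB M ⊤ χ ψ₀`. NUH (`L = ⊤`): `Ucl p e m M K ψ₀ (l z l⁻¹) (l x l⁻¹)`. `ψ₁ = cjF l⁻¹ ψ₀`: NUB (2) for `g = l⁻¹` (`cjS l⁻¹ K = K`), `SB M ⊤ ψ₁ ψ₀` (CJG (6) for `L = ⊤`). -/
def NFA_stmt : Prop :=
  ∀ (p e m : ℕ) (M : Ideal (integralClosure ℤ ℂ)), Setup p M → ∀ (G : Type) [Group G] [Finite G],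
    ∀ χ ∈ Irr G, ∀ z x : G, Ucl p e m M (⊤ : Subgroup G) χ z x → ∀ R₁ : Subgroup G, IsPGroup p R₁ → nz R₁ = ⊤ →
    ∃ ψ₁ ∈ IrrOn (cz R₁), SB M (⊤ : Subgroup G) ψ₁ χ ∧ Ucl p e m M (cz R₁) ψ₁ z x

/-- **NOB** (short to medium; from EIN of GR, IDM, SBI, CJG, B2). Blocks of `K` under the same block of `H` are conjugate. Proof: `T = {φ ∈ IrrOn K | ∃ h ∈ H, SB M K φ (cjF h ψ)}`: a union of blocks of `K` (`BC M K T`), stable under `cjF h`, `h ∈ H` (CJG (1), (2), (8), `cjS h K = K`). So `f = eS K T` has values `IntAt` (EIN), is invariant under `H` (substitute in the sum; degrees do not change) and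
vanishes outside `K ≤ H`: `CF H f`. `cc ψ f = 1` (IDM), so by SBI (1) `cc ψ' f` is not `0`, hence `ψ' ∈ T` (IDM): `SB M K ψ' (cjF h ψ)`, and conjugate by `h⁻¹`. -/
def NOB_stmt : Prop :=
  ∀ (p : ℕ) (M : Ideal (integralClosure ℤ ℂ)), Setup p M → ∀ (G : Type) [Group G] [Finite G] (K H : Subgroup G), K ≤ H → H ≤ nz K →
    ∀ ψ ∈ IrrOn K, ∀ ψ' ∈ IrrOn K, SB M H ψ ψ' → ∃ h ∈ H, SB M K (cjF h ψ') ψ

/-- **NFS** (short; from NUB, NUE, NEG, CJG). The stabiliser normalises `E`. Proof: `g ∈ TT M R₁ ψ₁`: `g ∈ nz R₁` and `SB M K (cjF g ψ₁) ψ₁`. `cjS g K = K`; NUB (2), (1): `Ucl p e m M K ψ₁ (g z g⁻¹) (g x g⁻¹)`; NUE: `cjS g E = Eg (g z g⁻¹) = cjS k E = E`, `k ∈ K = cz R₁ ≤ cz E`. `K ≤ TT`: `cz R₁ ≤ nz R₁`, CJG (6). `cz R₁ ≤ nz E`: `E ≤ R₁`, so `cz R₁ ≤ cz E`. -/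
def NFS_stmt : Prop :=
  ∀ (p e m : ℕ) (M : Ideal (integralClosure ℤ ℂ)), Setup p M → m < e → ∀ (G : Type) [Group G] [Finite G] (R₁ : Subgroup G),
    ∀ ψ₁ ∈ IrrOn (cz R₁), ∀ z x : G, Ucl p e m M (cz R₁) ψ₁ z x → Eg p e z ≤ R₁ →
    TT M R₁ ψ₁ ≤ nz (Eg p e z) ∧ cz R₁ ≤ TT M R₁ ψ₁ ∧ cz R₁ ≤ nz (Eg p e z)

/-- **NFI** (short to medium; COPY FRA5, `Pool/Agent/*/L5/FRA5.lean`; from CJG, IDM, CVF, EPR). The idempotent. (1) for `h ∈ TT M R₁ ψ₁` `cjF h` maps `Bl M K ψ₁` onto itself (`SB M K (cjF h ψ) (cjF h ψ₁)`, CJG (2); `K` is normal). (2) for `h ∉ TT M R₁ ψ₁` the sets `cjF h '' Bl M K ψ₁` and `Bl M K ψ₁` are disjoint: a common element `cjF h ψ`: `SB M K (cjF h ψ) ψ₁` and `SB M K (cjF h ψ) (cjF h ψ₁)`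
(CJG (2)), so `SB M K (cjF h ψ₁) ψ₁`, `h ∈ TT`; EPR. -/
def NFI_stmt : Prop :=
  ∀ (G : Type) [Group G] [Finite G] (M : Ideal (integralClosure ℤ ℂ)) (R₁ : Subgroup G), nz R₁ = ⊤ → ∀ ψ₁ ∈ IrrOn (cz R₁),
    (∀ h ∈ TT M R₁ ψ₁, ∀ y, eS (cz R₁) (Bl M (cz R₁) ψ₁) (h * y * h⁻¹) = eS (cz R₁) (Bl M (cz R₁) ψ₁) y) ∧
    (∀ h : G, h ∉ TT M R₁ ψ₁ →
      cv (fun y => eS (cz R₁) (Bl M (cz R₁) ψ₁) (h⁻¹ * y * h)) (eS (cz R₁) (Bl M (cz R₁) ψ₁)) = fun _ => 0)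

/-- **NFB** (short to medium; from CFA, CCJ, NFV or FOV3, NOB, TRN, B2; compare FRB5). `φ ∈ IrrOn H` is in the block `b(ψ₁)^H` iff it lies over the block of `ψ₁`. Proof: `R₁ ≤ cz R₁ = K ≤ H`. CFA (1): `ψ' ∈ IrrOn K`, `OverE K H φ ψ' n`; NFV (`P = R₁`, `N = H`; `H ⊓ cz R₁ = K`): `SB M H φ ψ'`; `mt K φ ψ'' ≠ 0` iff `ψ'' = cjF h ψ'` for some `h ∈ H` (CCJ (2), B2; for such `ψ''` also
`OverE K H φ ψ'' n`, and `SB M H φ ψ''`). `→`: `SB M H ψ' ψ₁`, NOB: `h ∈ H`, `SB M K (cjF h ψ') ψ₁` (use NOB with the roles exchanged), and `cjF h ψ' ∈ Bl M K ψ₁`, `mt ≠ 0`. `←`: `ψ'' ∈ Bl M K ψ₁`, `mt K φ ψ'' ≠ 0`: `SB M H φ ψ''`, `SB M H ψ'' ψ₁` (TRN). -/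
def NFB_stmt : Prop :=
  ∀ (p : ℕ) (M : Ideal (integralClosure ℤ ℂ)), Setup p M → ∀ (G : Type) [Group G] [Finite G] (R₁ : Subgroup G), IsPGroup p R₁ →
    (∀ a ∈ R₁, ∀ b ∈ R₁, a * b = b * a) → nz R₁ = ⊤ → ∀ ψ₁ ∈ IrrOn (cz R₁), ∀ H : Subgroup G, cz R₁ ≤ H → ∀ φ ∈ IrrOn H,
    (φ ∈ Bl M H ψ₁ ↔ ∃ ψ ∈ Bl M (cz R₁) ψ₁, mt (cz R₁) φ ψ ≠ 0)

/-- **NFR** (short to medium: COPY FR5, `Pool/Agent/*/L5/FR5.lean`, with `S = TT M R₁ ψ₁`; from NFI, NFB, FRD5, FRE5, QRS, EVM, IDM, QEI, FBC, CCI, CJG, B2). FONG-REYNOLDS. (`cz R₁ ≤ TT M R₁ ψ₁`: CJG (6).) -/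
def NFR_stmt : Prop :=
  ∀ (p : ℕ) (M : Ideal (integralClosure ℤ ℂ)), Setup p M → ∀ (G : Type) [Group G] [Finite G] (R₁ : Subgroup G), IsPGroup p R₁ →
    (∀ a ∈ R₁, ∀ b ∈ R₁, a * b = b * a) → nz R₁ = ⊤ → ∀ ψ₁ ∈ IrrOn (cz R₁), ∀ H : Subgroup G, TT M R₁ ψ₁ ≤ H →
    Le p M H ψ₁ = Le p M (TT M R₁ ψ₁) ψ₁

/-- **NFE** (medium; from NUH, NUG, NUD, NUE, NUB, DGL, CNTL, CFA, NFV or FOV3, NOB, NFS, TRN, CJG, NEG, TPR). The blocks of `nz E`, `E = Eg p e z ≤ R₁`. `K = cz R₁ ≤ H = nz E`. `⊆`: `φ ∈ IrrOn H`, `SB M H φ ψ₁`: `SB M ⊤ φ χ` (TRN). NUH (`L = ⊤`): `Ucl p e m M H φ z₁ x₁`. `D'` from NUD for `K`, `ψ₁`: `DefL p M K ψ₁ D' y`, `z ∈ D'`; `R₁ ≤ D'` (CNTL for `L = K`, `R = R₁`, `K ⊓ cz R₁ = K`; `R₁` is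
central in `K`), so `cz D' ≤ K` and `H ⊓ cz D' = K ⊓ cz D'`. DGL: `θ ∈ IrrOn (K ⊓ cz D')`, `SB M K θ ψ₁`, so `SB M H θ φ` (TRN). NUG (`w = z`): `Eg z₁ = cjS h E = E`. `⊇`: `φ ∈ IrrOn H`, `SB M ⊤ φ χ`, `Ucl p e m M H φ z' x'`, `Eg z' = E`. CFA (1) for `K ≤ H`: `ψ'`, NFV: `SB M H φ ψ'`. NUH (`L = H`): `Ucl p e m M K ψ' (h z' h⁻¹) _`, `h ∈ H`, `Eg (h z' h⁻¹) = E`. `SB M ⊤ ψ₁ ψ'`; NOB (`H := ⊤`): `g` with
`SB M K (cjF g ψ') ψ₁`. NUB (2), (1): `Ucl p e m M K ψ₁ (g h z' (g h)⁻¹) _`, with `Eg = cjS g E`; NUE: `cjS g E = cjS k E = E` (`k ∈ K ≤ nz E`), so `g ∈ H`, and `SB M H ψ' (cjF g ψ')` (CJG (6)), `SB M H (cjF g ψ') ψ₁` (TRN): `SB M H φ ψ₁`. -/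
def NFE_stmt : Prop :=
  ∀ (p e m : ℕ) (M : Ideal (integralClosure ℤ ℂ)), Setup p M → m < e → ∀ (G : Type) [Group G] [Finite G],
    ∀ χ ∈ Irr G, ∀ z x : G, Ucl p e m M (⊤ : Subgroup G) χ z x → ∀ R₁ : Subgroup G, IsPGroup p R₁ →
    (∀ a ∈ R₁, ∀ b ∈ R₁, a * b = b * a) → nz R₁ = ⊤ → Eg p e z ≤ R₁ → ∀ ψ₁ ∈ IrrOn (cz R₁), SB M (⊤ : Subgroup G) ψ₁ χ →
    Ucl p e m M (cz R₁) ψ₁ z x →
    Bl M (nz (Eg p e z)) ψ₁ = BE p e m M (⊤ : Subgroup G) (nz (Eg p e z)) (Eg p e z) χ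

/-- **NMF** (short; from NOP, NFA, NFS, NFR, NFE, NEG, TRN). The claim if `E ≤ R`, `R` a normal `p`-subgroup. Proof: `R₁ = R ⊓ cz R`: commutative, `nz R₁ = ⊤` (`nz R = ⊤`). NOP: `z x ∈ cz R`, so `z ∈ cz R` (NEG (4)), `E = Eg z ≤ R₁`. NFA: `ψ₁`. `Bl M ⊤ ψ₁ = Bl M ⊤ χ` (`SB.trans`). NFR for `H = ⊤` and for `H = nz E` (NFS: `TT M R₁ ψ₁ ≤ nz E`): `Le ⊤ χ = Le ⊤ ψ₁ = Le (nz E) ψ₁`, `= lE` by NFE. -/
def NMF_stmt : Prop :=
  ∀ (p e m : ℕ) (M : Ideal (integralClosure ℤ ℂ)), Setup p M → m < e → ∀ (G : Type) [Group G] [Finite G],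
    ∀ χ ∈ Irr G, ∀ z x : G, Ucl p e m M (⊤ : Subgroup G) χ z x → ∀ R : Subgroup G, IsPGroup p R → nz R = ⊤ → Eg p e z ≤ R →
    Le p M (⊤ : Subgroup G) χ = lE p e m M (⊤ : Subgroup G) (nz (Eg p e z)) (Eg p e z) χ

/-! ## 7. The main induction and the final statements -/

/-- **NMN** (short to medium; from NTN, NDV, NMF, NBH, NXU, NQU, LBN (`lb_eq_LL`), NEG, TPR; compare MN5, `Pool/Agent/*/L5/MN5.lean`). `l(B) = l(b)`, `b` the block of `nz E`. Proof: strong induction on `|G|` (for types). `R = O_p(G)` (exists: grep `theorem OPX` or as in MN5). If `E ≤ R`: NMF. Otherwise NTN (the claim for the types `N : Subgroup G`, `N ≠ ⊤`, by induction) and NDV (cast to `ℂ` with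
`lb_eq_LL`; NEG (3)): `|G| (Le - lE) = p ^ (e - m / 2) |G| k`, `k` an integer. `Le p M ⊤ χ = l₁` with `1 ≤ l₁ ≤ p ^ (2 m + 1)` (NBH for `N = ⊤`), NXU, NQU for `L = ⊤` (`⊤ ⊓ nz E = nz E`): `η ∈ BE`, `lE = Le p M (nz E) η = l₂`, `1 ≤ l₂ ≤ p ^ (2 m + 1)` (NBH for `N = nz E`, the unit class of `η`). `p ^ (2 m + 1) ≤ p ^ (e - m / 2)`, so `|l₁ - l₂| < p ^ (e - m / 2)` and `l₁ = l₂`. -/
def NMN_stmt : Prop :=
  ∀ (p e m : ℕ) (M : Ideal (integralClosure ℤ ℂ)), Setup p M → p ≠ 2 → 2 * m + 1 + m / 2 ≤ e → ∀ (G : Type) [Group G] [Finite G],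
    MNc p e m M G

/-- **NFN** (short: COPY FS5, `Pool/Agent/*/L5/FS5.lean`; from NTN, NMN, FT0, KRG, B2, NEG). The sum over `d` of the alternating sums is zero. (`R = ⊥`: `¬ Eg p e z ≤ ⊥` by NEG (6).) -/
def NFN_stmt : Prop :=
  ∀ (p e m : ℕ) (M : Ideal (integralClosure ℤ ℂ)), Setup p M → p ≠ 2 → 2 * m + 1 + m / 2 ≤ e → ∀ (G : Type) [Group G] [Finite G],
    ∀ χ ∈ Irr G, ∀ z x : G, Ucl p e m M (⊤ : Subgroup G) χ z x → IsOp p (⊤ : Subgroup G) ⊥ →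
    ∑ᶠ d : ℤ, altSum (trivE G) p M χ d ⊤ = 0

/-- **NFD** (short; from NFN, DG6, CLS, TPR). The final statement in terms of the defect group. Proof: `DefectGroup p M χ D` gives `DefAt p M χ D x` (grep how `helper58/LE` or `helper12/LE/FinG` get `DefAt` from `DefectGroup`); DG6: `omega χ (z x)` is not `InM`; `Ucl p e m M ⊤ χ z x`: `pp p (Cz ⊤ (z x)) ≤ pp p (Cz ⊤ x) = |D|` (NEG (4), SYL). -/
def NFD_stmt : Prop :=
  ∀ (p e m : ℕ) (M : Ideal (integralClosure ℤ ℂ)), Setup p M → p ≠ 2 → 2 * m + 1 + m / 2 ≤ e → ∀ (G : Type) [Group G] [Finite G],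
    ∀ χ ∈ Irr G, ∀ D : Subgroup G, Pool.Agent.MAP.DefectGroup p M χ D → Nat.card D ≤ p ^ (e + m) →
    ∀ z ∈ D, (∀ d ∈ D, z * d = d * z) → orderOf z = p ^ e → IsOp p (⊤ : Subgroup G) ⊥ →
    ∑ᶠ d : ℤ, altSum (trivE G) p M χ d ⊤ = 0

end Pool.Agent.NAB
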