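import Mathlib
import Pool.Agent.helper37.NA.Spec

/-!
# MP_baa4d7_al, THEOREM NA, second part of the spec: the bound, the main induction and the final statements for ALL primes `p` (also `p = 2`)

Rules, header and hypotheses as in `helper37/NA/Spec.lean` (import `Pool.Agent.helper37.NA.Spec2`). For `p = 2` the bound is `l(B) ≤ 4 q ^ 2` (helper12: `helper12/NA/WBX4.lean`, theorem `BZ2`). `bz p = 2` for `p = 2` and `1` otherwise: `l ≤ p ^ (2 m + bz p)`.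
-/

set_option autoImplicit false

namespace Pool.Agent.NAB

open Pool.Agent.helper58.DC Pool.Agent.DI Pool.Agent.GR Pool.Agent.OB Pool.Agent.DR Pool.Agent.FI Pool.Agent.FI3 Pool.Agent.FI4 Pool.Agent.FI4I Pool.Agent.LE Pool.Agent.L5

/-- The exponent of the constant in the bound. -/
def bz (p : ℕ) : ℕ := if p = 2 then 2 else 1

/-- **BZ2x** (NOT A ROW: it is the theorem `BZ2` of `helper12/NA`). The bound for `p = 2`. -/
def BZ2x_stmt : Prop :=
  ∀ (M : Ideal (integralClosure ℤ ℂ)), Setup 2 M → ∀ (G : Type) [Group G] [Finite G], ∀ χ ∈ IrrOn (⊤ : Subgroup G),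
    ∀ (z x : G) (e q : ℕ), 2 ≤ e → UZ 2 M χ z x e q → ∃ l : ℕ, LL 2 M χ ⊤ = l ∧ 1 ≤ l ∧ l ≤ 4 * q ^ 2

/-- **NBP** (short; from NBH, and the proof of NBH with BZ2x in place of BZN for `p = 2`). The bound for subgroups, all `p`. -/
def NBP_stmt : Prop :=
  ∀ (p e m : ℕ) (M : Ideal (integralClosure ℤ ℂ)), Setup p M → bz p ≤ e → ∀ (G : Type) [Group G] [Finite G] (N : Subgroup G),
    ∀ φ ∈ IrrOn N, ∀ z x : G, Ucl p e m M N φ z x → ∃ l : ℕ, Le p M N φ = l ∧ 1 ≤ l ∧ l ≤ p ^ (2 * m + bz p)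

/-- **NMP** (short to medium; the proof of NMN (docstring in Spec) with NBP in place of NBH; from NTN, NDV, NMF, NBP, NXU, NQU, LBN (`lb_eq_LL`), NEG, TPR; compare MN5, `Pool/Agent/*/L5/MN5.lean`). `l(B) = l(b)`, `b` the block of `nz E`. Proof: strong induction on `|G|` (for types). `R = O_p(G)` (exists: as in MN5). If `E ≤ R`: NMF.
Otherwise NTN (the claim for the types `N : Subgroup G`, `N ≠ ⊤`, by induction) and NDV (cast to `ℂ` with `lb_eq_LL`; NEG (3)): `|G| (Le - lE) = p ^ (e - m / 2) |G| k`, `k` an integer. `Le p M ⊤ χ = l₁` with `1 ≤ l₁ ≤ p ^ (2 m + bz p)` (NBP for `N = ⊤`), NXU, NQU for `L = ⊤` (`⊤ ⊓ nz E = nz E`): `η ∈ BE`, `lE = Le p M (nz E) η = l₂`,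
`1 ≤ l₂ ≤ p ^ (2 m + bz p)` (NBP for `N = nz E`, the unit class of `η`). `p ^ (2 m + bz p) ≤ p ^ (e - m / 2)`, so `|l₁ - l₂| < p ^ (e - m / 2)` and `l₁ = l₂`. -/
def NMP_stmt : Prop :=
  ∀ (p e m : ℕ) (M : Ideal (integralClosure ℤ ℂ)), Setup p M → 2 * m + bz p + m / 2 ≤ e → ∀ (G : Type) [Group G] [Finite G],
    MNc p e m M G

/-- **NFP** (short: COPY FS5, `Pool/Agent/*/L5/FS5.lean`; from NTN, NMP, FT0, KRG, B2, NEG). The sum over `d` of the alternating sums is zero. (`R = ⊥`: `¬ Eg p e z ≤ ⊥` by NEG (6); `m < e` since `bz p ≥ 1`.) -/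
def NFP_stmt : Prop :=
  ∀ (p e m : ℕ) (M : Ideal (integralClosure ℤ ℂ)), Setup p M → 2 * m + bz p + m / 2 ≤ e → ∀ (G : Type) [Group G] [Finite G],
    ∀ χ ∈ Irr G, ∀ z x : G, Ucl p e m M (⊤ : Subgroup G) χ z x → IsOp p (⊤ : Subgroup G) ⊥ →
    ∑ᶠ d : ℤ, altSum (trivE G) p M χ d ⊤ = 0

/-- **NFQ** (short; from NFP, DG6, CLS, TPR, NEG, SYL). The final statement in terms of the defect group. Proof: `DefectGroup p M χ D` gives `DefAt p M χ D x` (grep how `helper12/LE/FinG` or `helper58/LE` get `DefAt` from `DefectGroup`); DG6: `omega χ (z x)` is not `InM`; `Ucl p e m M ⊤ χ z x`: `pp p (Cz ⊤ (z x)) ≤ pp p (Cz ⊤ x) = |D|` (NEG (4), SYL). -/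
def NFQ_stmt : Prop :=
  ∀ (p e m : ℕ) (M : Ideal (integralClosure ℤ ℂ)), Setup p M → 2 * m + bz p + m / 2 ≤ e → ∀ (G : Type) [Group G] [Finite G],
    ∀ χ ∈ Irr G, ∀ D : Subgroup G, Pool.Agent.MAP.DefectGroup p M χ D → Nat.card D ≤ p ^ (e + m) →
    ∀ z ∈ D, (∀ d ∈ D, z * d = d * z) → orderOf z = p ^ e → IsOp p (⊤ : Subgroup G) ⊥ →
    ∑ᶠ d : ℤ, altSum (trivE G) p M χ d ⊤ = 0

end Pool.Agent.NAB
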