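import Pool.Agent.helper37.NA.Spec

/-!
# Row na:NBH: the bound for subgroups
-/

set_option autoImplicit false

namespace Pool.Agent.NAB

open Pool.Agent.helper58.DC Pool.Agent.DI Pool.Agent.GR Pool.Agent.OB Pool.Agent.DR Pool.Agent.FI Pool.Agent.FI3 Pool.Agent.FI4 Pool.Agent.FI4I Pool.Agent.LE Pool.Agent.L5

theorem NBH (hNTK : NTK_stmt) (hBZN : BZN_stmt) (hTR1 : TR1_stmt) (hTRE : Pool.Agent.L5.TRE_stmt)
    (hTPR : Pool.Agent.FI.TPR_stmt) : NBH_stmt := by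
  intro p e m M hM hp he G _ _ N φ hφ z x hU
  have hz : z ∈ N := hU.zm
  have hx : x ∈ N := hU.xm
  have hvan : ∀ y, y ∉ N → φ y = 0 := fun y hy => hφ.1 y hy
  have hNN : N.subgroupOf N = ⊤ := Subgroup.subgroupOf_self N
  have hU' : Ucl p e m M (N.subgroupOf N) (rN N φ) (⟨z, hz⟩ : N) (⟨x, hx⟩ : N) :=
    (hNTK p e m M G N N le_rfl φ hvan ⟨z, hz⟩ ⟨x, hx⟩).2 hU
  have hirr : rN N φ ∈ IrrOn (N.subgroupOf N) := ((hTR1 G N N le_rfl).1 φ hvan).1 hφ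
  rw [hNN] at hU' hirr
  have hUZ : UZ p M (rN N φ) (⟨z, hz⟩ : N) (⟨x, hx⟩ : N) e (p ^ m) := by
    refine ⟨hU'.co, hU'.re, hU'.od, hU'.ne, ?_⟩
    have h1 := hU'.cd
    rwa [Nat.add_comm, pow_add] at h1
  obtain ⟨l, hl, h1, h2⟩ := hBZN p M hM hp N (rN N φ) hirr _ _ e (p ^ m) he hUZ
  have hT := hTPR p M hM N
  have hLL : LL p M (rN N φ) (⊤ : Subgroup N) = Le p M (⊤ : Subgroup N) (rN N φ) := by
    unfold LL Le
    rw [hT.2.2.2.1]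
    rfl
  have hLe : Le p M (⊤ : Subgroup N) (rN N φ) = Le p M N φ := by
    rw [← hNN]
    exact hTRE p M hM G N N le_rfl φ hvan
  refine ⟨l, ?_, h1, ?_⟩
  · rw [← hLe, ← hLL, hl]
  · calc l ≤ p * (p ^ m) ^ 2 := h2
      _ = p ^ (2 * m + 1) := by rw [← pow_mul, pow_succ, mul_comm m 2, mul_comm p]

end Pool.Agent.NAB
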