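import Mathlib
import Pool.Agent.helper1.FI3.AllH3
import Pool.Agent.helper12.FI.All
import Pool.Agent.helper12.NA.NTR
import Pool.Agent.helper12.NA.WBX4
import Pool.Agent.helper14.NA.NBC
import Pool.Agent.helper14.NA.NUF
import Pool.Agent.helper15.NA.NTC
import Pool.Agent.helper16.NA.NXU
import Pool.Agent.helper18.NA.NQC
import Pool.Agent.helper2.NA.NTN
import Pool.Agent.helper22.FI.AllA
import Pool.Agent.helper22.OB.AllG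
import Pool.Agent.helper23.NA.NEC
import Pool.Agent.helper25.NA.NTG
import Pool.Agent.helper26.L5.FRD5
import Pool.Agent.helper26.NA.NPA
import Pool.Agent.helper26.NA.NQK
import Pool.Agent.helper26.NA.NUX
import Pool.Agent.helper35.DR.All
import Pool.Agent.helper35.DR.AllDI
import Pool.Agent.helper37.NA.NBH
import Pool.Agent.helper37.NA.Spec2
import Pool.Agent.helper38.NA.NQB
import Pool.Agent.helper41.NA.NMP
import Pool.Agent.helper43.NA.NKB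
import Pool.Agent.helper43.NA.NTI
import Pool.Agent.helper43.NA.NTK
import Pool.Agent.helper44.NA.NFP
import Pool.Agent.helper48.NA.NFE
import Pool.Agent.helper48.NA.NFV
import Pool.Agent.helper48.NA.NOP
import Pool.Agent.helper48.NA.NUB
import Pool.Agent.helper48.NA.NUH
import Pool.Agent.helper51.NA.NFB
import Pool.Agent.helper53.NA.NFR
import Pool.Agent.helper53.NA.NUC
import Pool.Agent.helper53.NA.NUE
import Pool.Agent.helper58.FI.AllC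
import Pool.Agent.helper58.FI3F.AllF
import Pool.Agent.helper58.LE.DVK
import Pool.Agent.helper58.NA.NQU
import Pool.Agent.helper59.FI4.AllI
import Pool.Agent.helper59.NA.NQ5
import Pool.Agent.helper61.L5.FRC5
import Pool.Agent.helper61.NA.NLC
import Pool.Agent.helper61.NA.NTM
import Pool.Agent.helper63.NA.NBP
import Pool.Agent.helper63.NA.NDB
import Pool.Agent.helper63.NA.NFA
import Pool.Agent.helper63.NA.NFQ
import Pool.Agent.helper63.NA.NFS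
import Pool.Agent.helper65.NA.NEG
import Pool.Agent.helper66.NA.NCD
import Pool.Agent.helper70.FI4.AllK
import Pool.Agent.helper70.LZ.AllW
import Pool.Agent.helper72.NA.NQD
import Pool.Agent.helper80.L5.FRE5
import Pool.Agent.helper83.FI.AllR
import Pool.Agent.helper83.GR.All
import Pool.Agent.helper83.NA.NDG
import Pool.Agent.helper9.L5.TRE
import Pool.Agent.helper91.NA.NFI
import Pool.Agent.helper91.NA.NUD
import Pool.Agent.helper91.NA.NUG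
import Pool.Agent.helper92.NA.NDV
import Pool.Agent.helper95.NA.NKC
import Pool.Agent.helper95.NA.NMF
import Pool.Agent.helper95.NA.NOB

/-!
# MP_baa4d7_al, THEOREM NA: all rows without hypotheses (specification: `helper37/NA/Spec`, `helper37/NA/Spec2`)
-/

set_option autoImplicit false

namespace Pool.Agent.NAB.All

open Pool.Agent.helper58.DC Pool.Agent.DI Pool.Agent.GR Pool.Agent.OB Pool.Agent.DR Pool.Agent.FI Pool.Agent.FI3 Pool.Agent.FI4 Pool.Agent.FI4I Pool.Agent.LE Pool.Agent.L5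

theorem xTRE : L5.TRE_stmt :=
  L5.TRE FI4I.AllI.iTR1 FI4I.AllI.iTR2 FI4I.AllI.iTR4
theorem xFRE5 : L5.FRE5_stmt :=
  L5.FRE5 DR.All.rCRE GR.All.dB2
theorem xFRC5 : L5.FRC5_stmt :=
  L5.FRC5 GR.All.dIDM GR.All.dCCI GR.All.dCVF FI.AllR.rEVM FI.AllQ.qQRS GR.All.dB2
theorem xFRD5 : L5.FRD5_stmt :=
  L5.FRD5 xFRC5 FI.AllQ.qQRS GR.All.dB2
theorem xNDX : NDX_stmt :=
  LE.DVK_dv FI4.AllK.kKRG FI4.AllK.kJT0 FI4.AllK.kLBN
theorem xBZ2x : BZ2x_stmt :=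
  fun M hS G _ _ χ hχ z x e q he hU => LE.BZ2 LE.AllZ.zZNR LE.AllZ.zZOR LE.AllZ.zZE0 LE.AllZ.zZPR LE.AllW.wWEX LE.AllW.wWL2 LE.AllW.wWPL LE.AllW.wWNG LE.AllCNG.cCNG FI4.AllK.kLLN FI.AllA.dTPR M hS G χ hχ z x e q he hU
theorem aNEG : NEG_stmt := NAB.NEG
theorem aNEC : NEC_stmt := NAB.NEC aNEG
theorem aNTR : NTR_stmt := NAB.NTR
theorem aNDG : NDG_stmt := NAB.NDG OB.AllG.gDG6 FI4I.AllI.iTR1 FI4I.AllI.iTR2 FI4I.AllI.iTR3 FI.AllA.dCLS FI.AllA.dTPR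
theorem aNCD : NCD_stmt := NAB.NCD FI.AllA.dDEX FI.AllA.dDGL FI.AllA.dCNTL FI.AllA.dTRN
theorem aNUC : NUC_stmt := NAB.NUC aNEG aNCD FI.AllA.dDGL FI.AllA.dSBI FI.AllA.dDCM FI.AllA.dCLS FI.AllA.dVN1
theorem aNUD : NUD_stmt := NAB.NUD aNEG aNUC FI.AllA.dDEX FI.AllA.dCJG
theorem aNUH : NUH_stmt := NAB.NUH aNEG FI.AllA.dSBI FI.AllA.dDCM FI.AllA.dCLS FI.AllA.dSYL
theorem aNUB : NUB_stmt := NAB.NUB aNEG FI.AllA.dSBI FI.AllA.dCJG FI.AllA.dSYL FI.AllA.dCLS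
theorem aNUE : NUE_stmt := NAB.NUE aNEG aNEC aNUD FI.AllA.dDEX
theorem aNUG : NUG_stmt := NAB.NUG aNEG aNEC aNUD FI.AllA.dDEX FI.AllA.dCNTL
theorem aNUF : NUF_stmt := NAB.NUF aNEG aNUE FI.AllA.dSBI FI.AllA.dDCM FI.AllA.dCLS GR.All.dCCI FI.AllA.dSYL
theorem aNFV : NFV_stmt := NAB.NFV DR.AllDI.iC5a GR.All.dC3 DR.All.rCCJ GR.All.dB2
theorem aNUX : NUX_stmt := NAB.NUX aNEG aNFV DR.All.rCFA FI.AllA.dEXB FI.AllA.dTRN
theorem aNXU : NXU_stmt := NAB.NXU aNEG aNEC aNUD aNUH aNUG FI.AllA.dDGL FI.AllA.dEXB FI.AllA.dTRN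
theorem aNQD : NQD_stmt := NAB.NQD aNEG aNEC aNDG aNUF FI.AllA.dDEX FI.AllA.dDGL FI.AllA.dCNTL FI.AllA.dTRN FI.AllA.dCJG FI.AllA.dSYL
theorem aNQB : NQB_stmt := NAB.NQB FI.AllA.dCFX FI.AllA.dSYL FI.AllA.dCLS
theorem aNQC : NQC_stmt := NAB.NQC FI.AllA.dNCJ FI.AllA.dSYL FI.AllA.dDUN FI.AllA.dDCM FI.AllA.dCLS GR.All.dCCI
theorem aNQ5 : NQ5_stmt := NAB.NQ5 aNQB aNQC FI.AllA.dDGW GR.All.dCCI FI.AllA.dSBI FI.AllA.dCLS GR.All.dCVF GR.All.dC3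
theorem aNQU : NQU_stmt := NAB.NQU aNEG aNEC aNUD aNUB aNQD aNQ5 FI.AllA.dDUN FI.AllA.dCJG FI.AllA.dTRN
theorem aNTK : NTK_stmt := NAB.NTK aNEG FI4I.AllI.iTR2 FI4I.AllI.iTR3
theorem aNTI : NTI_stmt := NAB.NTI aNEG aNTK FI4I.AllI.iTR1 FI4I.AllI.iTR2 FI4I.AllI.iTR3 FI4I.AllI.iTR4 xTRE FI.AllA.dTPR GR.All.dB2
theorem aNBH : NBH_stmt := NAB.NBH aNTK LE.AllW.wBZN FI4I.AllI.iTR1 xTRE FI.AllA.dTPR
theorem aNBC : NBC_stmt := NAB.NBC aNEG aNUB FI.AllA.dCJG FI.AllQ.qQCJ FI.AllA.dTRN GR.All.dB2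
theorem aNTC : NTC_stmt := NAB.NTC aNEG aNUF aNUE aNBC FI.AllC.cFEQ
theorem aNPA : NPA_stmt := NAB.NPA
theorem aNLC : NLC_stmt := NAB.NLC aNPA aNTI aNTC aNUH aNUX aNBC FI.AllA.dTRN FI.AllA.dTPR FI4.AllK.kLBN FI.AllQ.qQEI FI.AllC.cFBC GR.All.dB2
theorem aNTG : NTG_stmt := NAB.NTG
theorem aNTM : NTM_stmt := NAB.NTM aNEG aNTG aNTC aNUH aNUE FI.AllC.cFEQ GR.All.dB2
theorem aNTN : NTN_stmt := NAB.NTN aNTM aNLC FI.AllC.cFNO FI4.AllK.kLBN FI.AllA.dTPR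
theorem aNQK : NQK_stmt := NAB.NQK FI4.AllK.kKMG FI4.AllK.kKG1 FI.AllA.dCLS FI.AllA.dTPR FI.AllA.dSBI GR.All.dC3
theorem aNKC : NKC_stmt := NAB.NKC FI4.AllK.kKG1
theorem aNKB : NKB_stmt := NAB.NKB FI4.AllK.kKBL FI3F.AllF.cFMX3 DR.AllDI.iC7 DR.AllDI.iC8 GR.All.dIM
theorem aNDB : NDB_stmt := NAB.NDB aNUD aNTR xNDX FI.AllA.dTPR FI.AllA.dCLS
theorem aNDV : NDV_stmt := NAB.NDV aNDB aNQK aNKC aNKB FI4.AllK.kKG1 FI4.AllK.kKLE FI4.AllK.kKIN FI4.AllK.kKBL FI4.AllK.kKUN GR.All.dBCL GR.All.dIM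
theorem aNOP : NOP_stmt := NAB.NOP DR.AllDI.iC5a FI.AllA.dCLS FI.AllA.dTPR
theorem aNFA : NFA_stmt := NAB.NFA aNFV aNUH aNUB DR.All.rCFA FI.AllA.dCJG FI.AllA.dTPR
theorem aNOB : NOB_stmt := NAB.NOB GR.All.dEIN GR.All.dIDM FI.AllA.dSBI
theorem aNFS : NFS_stmt := NAB.NFS aNEG aNUB aNUE FI.AllA.dCJG
theorem aNFI : NFI_stmt := NAB.NFI FI.AllA.dCJG GR.All.dIDM GR.All.dCVF FI3.AllH3.hEPR
theorem aNFB : NFB_stmt := NAB.NFB aNFV aNOB DR.All.rCFA DR.All.rCCJ FI.AllA.dTRN FI.AllA.dCJG GR.All.dB2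
theorem aNFR : NFR_stmt := NAB.NFR aNFI aNFB xFRD5 xFRE5 FI.AllQ.qQRS FI.AllR.rEVM GR.All.dIDM FI.AllQ.qQEI FI.AllC.cFBC GR.All.dCCI FI.AllA.dCJG GR.All.dB2
theorem aNFE : NFE_stmt := NAB.NFE aNEG aNUH aNUG aNUD aNUE aNUB aNFV aNOB aNFS FI.AllA.dDGL FI.AllA.dCNTL DR.All.rCFA FI.AllA.dTRN FI.AllA.dCJG FI.AllA.dTPR
theorem aNMF : NMF_stmt := NAB.NMF aNEG aNOP aNFA aNFS aNFR aNFE
theorem aNBP : NBP_stmt := NAB.NBP aNTK aNBH xBZ2x FI4I.AllI.iTR1 xTRE FI.AllA.dTPR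
theorem aNMP : NMP_stmt := NAB.NMP aNEG aNTN aNDV aNMF aNBP aNXU aNQU FI4.AllK.kLBN FI.AllA.dTPR
theorem aNFP : NFP_stmt := NAB.NFP aNEG aNTN aNMP FI.AllC.cFT0 FI4.AllK.kKRG GR.All.dB2 FI.AllA.dTPR
theorem aNFQ : NFQ_stmt := NAB.NFQ aNEG aNFP OB.AllG.gDG6 FI.AllA.dCLS FI.AllA.dTPR FI.AllA.dSYL

end Pool.Agent.NAB.All
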