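import Mathlib
import Pool.Agent.helper12.FI.All
import Pool.Agent.helper12.LE.AllL5
import Pool.Agent.helper14.NA.XLC
import Pool.Agent.helper18.NA.XFX
import Pool.Agent.helper18.NA.XOU
import Pool.Agent.helper22.FI.AllA
import Pool.Agent.helper22.OB.AllG
import Pool.Agent.helper23.NA.XDV
import Pool.Agent.helper23.NA.XDZ
import Pool.Agent.helper25.BQ.DWN
import Pool.Agent.helper25.NA.XFR
import Pool.Agent.helper27.NA.XTN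
import Pool.Agent.helper33.NA.XDB
import Pool.Agent.helper34.NA.XUN
import Pool.Agent.helper35.BQ.All
import Pool.Agent.helper35.DR.AllDI
import Pool.Agent.helper37.NA.All
import Pool.Agent.helper40.NA.XPB
import Pool.Agent.helper46.NA.XLG
import Pool.Agent.helper5.NA.XDC
import Pool.Agent.helper5.NA.XFD
import Pool.Agent.helper58.FI.AllC
import Pool.Agent.helper58.FI4E.AllE
import Pool.Agent.helper58.NA.XTB
import Pool.Agent.helper59.FI4.AllI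
import Pool.Agent.helper59.NA.XMF
import Pool.Agent.helper6.NA.XTI
import Pool.Agent.helper61.NA.XUS
import Pool.Agent.helper67.NA.XTG
import Pool.Agent.helper70.FI4.AllK
import Pool.Agent.helper70.FI4E.AllE3
import Pool.Agent.helper78.NA.XTM
import Pool.Agent.helper79.NA.XZE
import Pool.Agent.helper83.FI.AllR
import Pool.Agent.helper83.GR.All
import Pool.Agent.helper83.NA.XTO
import Pool.Agent.helper94.NA.XOQ
import Pool.Agent.helper94.NA.XUA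
import Pool.Agent.helper97.NA.SpecE
import Pool.Agent.helper97.NA.XTC
import Pool.Agent.helper98.NA.XMN

/-!
# MP_baa4d7_al, THEOREM NA, block E: all rows without hypotheses (specification: `helper97/NA/SpecE`)
-/

set_option autoImplicit false

namespace Pool.Agent.NAB.AllE

open Pool.Agent.helper58.DC Pool.Agent.DI Pool.Agent.GR Pool.Agent.OB Pool.Agent.DR Pool.Agent.FI Pool.Agent.FI3 Pool.Agent.FI4 Pool.Agent.FI4I Pool.Agent.FI4E Pool.Agent.LE Pool.Agent.L5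

theorem eXUA : XUA_stmt := NAB.XUA FI4E.AllE.eBAA
theorem eXTB : XTB_stmt := NAB.XTB FI4E.AllE.eTSI FI4E.AllE.eTSJ eXUA
theorem eXOU : XOU_stmt := NAB.XOU
theorem eXUS : XUS_stmt := NAB.XUS FI4E.AllE.eBAA FI.AllQ.qQEI FI.AllC.cFBC FI.AllA.dTRN GR.All.dB2
theorem eXPB : XPB_stmt := NAB.XPB
theorem eXTC : XTC_stmt := NAB.XTC NAB.All.aNUF NAB.All.aNUE eXTB FI4E.AllE.eBAA
theorem eXTI : XTI_stmt := NAB.XTI NAB.All.aNTK FI4I.AllI.iTR1 FI4I.AllI.iTR2 FI4I.AllI.iTR3 FI4I.AllI.iTR4 FI4E.AllE.eTRA L5.AllL5.mTRE5 L5.AllL5.mOUP5 FI.AllA.dTPR NAB.All.aNEG GR.All.dB2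
theorem eXLC : XLC_stmt := NAB.XLC eXPB eXTI eXTC eXUS eXUA eXTB eXOU NAB.All.aNUH NAB.All.aNUX NAB.All.aNUB NAB.All.aNUE FI4E.AllE.eTSI FI4E.AllE.eBAA FI.AllA.dTRN FI.AllA.dTPR GR.All.dB2
theorem eXTG : XTG_stmt := NAB.XTG
theorem eXZE : XZE_stmt := NAB.XZE NAB.All.aNUX NAB.All.aNUF NAB.All.aNUH NAB.All.aNUE NAB.All.aNEG DR.AllDI.iC5a FI.AllA.dCLS
theorem eXTO : XTO_stmt := NAB.XTO eXTG eXZE
theorem eXTM : XTM_stmt := NAB.XTM eXTO eXTC FI4E.AllE.eBAA FI.AllA.dTPR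
theorem eXLG : XLG_stmt := NAB.XLG eXLC FI4E.AllE.eTSI FI4E.AllE.eBAA L5.AllL5.mOUP5
theorem eXTN : XTN_stmt := NAB.XTN eXTM eXLG FI4E.AllE.eTSI FI4E.AllE.eBAA FI.AllA.dTPR
theorem eXFX : XFX_stmt := NAB.XFX NAB.All.aNOB eXUA NAB.All.aNUB NAB.All.aNUE FI4E.AllE.eBAA FI.AllA.dTPR
theorem eXFR : XFR_stmt := NAB.XFR NAB.All.aNFI NAB.All.aNFB NAB.All.xFRD5 NAB.All.xFRE5 L5.AllL5.mFXA FI4E.AllE.eBAA FI.AllQ.qQRS FI.AllR.rEVM GR.All.dIDM GR.All.dCCI FI.AllQ.qQEI FI.AllC.cFBC FI.AllA.dCJG GR.All.dB2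
theorem eXMF : XMF_stmt := NAB.XMF NAB.All.aNOP NAB.All.aNFA NAB.All.aNFS NAB.All.aNFE eXFX eXFR eXTB FI4E.AllE.eTSI FI4E.AllE.eBAA NAB.All.aNEG FI.AllA.dTRN FI.AllA.dTPR
theorem eXOQ : XOQ_stmt := NAB.XOQ NAB.All.aNKC NAB.All.aNKB FI4E.AllE3.eELE FI4E.AllE3.eEQA FI4E.AllE3.eEAU FI4.AllK.kKIN GR.All.dBCL
theorem eXUN : XUN_stmt := NAB.XUN FI4E.AllE.eUNS FI4E.AllE3.eEAU GR.All.dIM GR.All.dB2
theorem eXDB : XDB_stmt := NAB.XDB NAB.All.aNUD NAB.All.aNTR L5.AllL5.mEDV5 FI.AllA.dTPR FI.AllA.dCLS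
theorem eXDV : XDV_stmt := NAB.XDV eXDB eXOQ eXUN NAB.All.aNQK NAB.All.aNKC FI4.AllK.kKBL FI4.AllK.kKG1 FI4E.AllE3.eEQA FI4E.AllE.eBAA L5.AllL5.mEJ5 GR.All.dIM
theorem eXMN : XMN_stmt := NAB.XMN eXTN eXDV eXMF eXUA eXTB NAB.All.aNBP NAB.All.aNXU NAB.All.aNQU NAB.All.aNEG FI4E.AllE.eTSI FI4E.AllE.eBAA L5.AllL5.mPRO5 L5.AllL5.mEJ5 L5.AllL5.mMLT5 L5.AllL5.mFIN5 FI.AllC.cFBC NAB.All.aNBC FI.AllA.dTPR L5.AllL5.mOUP5
theorem eXDZ : XDZ_stmt := NAB.XDZ FI4E.AllE.eOMX FI4E.AllE.eOMR eXTN eXMN eXUA NAB.All.aNUB NAB.All.aNUE NAB.All.aNEG FI4E.AllE.eBAA L5.AllL5.mOUP5 FI.AllA.dTPR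
theorem eXDC : XDC_stmt := NAB.XDC eXDZ BQ.All.qZRO BQ.DWN L5.AllL5.mEJ5 GR.All.dB2
theorem eXFD : XFD_stmt := NAB.XFD eXDC OB.AllG.gDG6 FI.AllA.dCLS FI.AllA.dTPR NAB.All.aNEG FI.AllA.dSYL

end Pool.Agent.NAB.AllE
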