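import Mathlib

/-!
# Blocks whose defect group has a large central cyclic subgroup: definitions for the statement
-/

set_option autoImplicit false

namespace Pool.Agent.NAS

variable {G : Type} [Group G]

/-- `D` has a central element `z` of order `p ^ e` with `|D : ⟨z⟩| ≤ p ^ m` and `2 m + ⌊m / 2⌋ + v + 1 ≤ e` (for `p = 2`:
`2 m + ⌊m / 2⌋ + v + 2 ≤ e`). -/
def LargeCentral (p : ℕ) (D : Subgroup G) (v : ℕ) : Prop :=
  ∃ e m : ℕ, ∃ z ∈ D, (∀ d ∈ D, z * d = d * z) ∧ orderOf z = p ^ e ∧ Nat.card D ≤ p ^ (e + m) ∧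
    2 * m + m / 2 + v + (if p = 2 then 2 else 1) ≤ e

/-- `p` is odd and `D` has an element `y` (not necessarily central) of order `p ^ a` with `|D : ⟨y⟩| ≤ p ^ r` and
`6 r + v + 1 ≤ a`. -/
def LargeCyclicSubgroup (p : ℕ) (D : Subgroup G) (v : ℕ) : Prop :=
  p ≠ 2 ∧ ∃ a r : ℕ, ∃ y ∈ D, orderOf y = p ^ a ∧ Nat.card D ≤ p ^ (a + r) ∧ 6 * r + v + 1 ≤ a

end Pool.Agent.NAS
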