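import Mathlib
import Pool.Agent.helper37.NA.AllE
import Pool.Agent.helper37.NA.DefsS
import Pool.Agent.helper51.L5.PRO5
import Pool.Agent.helper12.NA.CYC

/-!
# MP_baa4d7_al, THEOREM NA: the final theorem
-/

set_option autoImplicit false

namespace Pool.Agent.NAS

open Pool.Agent.helper58.DC Pool.Agent.DI

/-- Reduction of the order of `s` modulo the subgroup. -/
theorem red_order {A : Type} [Group A] [Finite A] (s : A) (n : ℕ) (hn : 0 < n) :
    ∃ m j : ℕ, m = n * j + 1 ∧ ∀ l : ℕ, l.Prime → l ∣ orderOf (s ^ m) → l ∣ n := by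
  have ho : 0 < orderOf s := orderOf_pos s
  obtain ⟨n₁, n₂, e, hc, hp⟩ := Pool.Agent.L5.PRO5_split n (orderOf s) ho
  have hn₂ : 0 < n₂ := by
    rcases Nat.eq_zero_or_pos n₂ with h | h
    · rw [h, mul_zero] at e
      omega
    · exact h
  have hk : 1 ≤ n₂ ^ n.totient := Nat.one_le_iff_ne_zero.2 (pow_ne_zero _ hn₂.ne')
  have h1 : n ∣ n₂ ^ n.totient - 1 := (Nat.modEq_iff_dvd' hk).1 (Nat.ModEq.pow_totient hc).symm
  obtain ⟨j, hj⟩ := h1
  refine ⟨n₂ ^ n.totient, j, by omega, fun l hl h => ?_⟩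
  refine hp l hl (h.trans (orderOf_dvd_of_pow_eq_one ?_))
  obtain ⟨r, hr⟩ := dvd_pow_self n₂ (Nat.totient_pos.2 hn).ne'
  rw [← pow_mul, hr]
  have h3 : n₂ * r * n₁ = orderOf s * r := by
    rw [e]
    ring
  rw [h3, pow_mul, pow_orderOf_eq_one, one_pow]

theorem red_cyc {A : Type} [Group A] (N : Subgroup A) (s : A) (n j m : ℕ) (hs : s ^ n ∈ N) (hm : m = n * j + 1) (a : A)
    (ha : ∃ k : ℤ, s ^ k * a ∈ N) : ∃ k : ℤ, (s ^ m) ^ k * a ∈ N := by
  obtain ⟨k, hk⟩ := ha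
  refine ⟨k, ?_⟩
  have h1 : (s ^ m) ^ k = (s ^ n) ^ ((j : ℤ) * k) * s ^ k := by
    rw [hm, ← zpow_natCast, ← zpow_natCast, ← zpow_mul, ← zpow_mul, ← zpow_add]
    congr 1
    push_cast
    ring
  rw [h1, mul_assoc]
  exact N.mul_mem (N.zpow_mem hs _) hk

/-- A cyclic subgroup of small index gives a central one. -/
theorem cyclic_central {G : Type} [Group G] [Finite G] {p : ℕ} (hp : p.Prime) (D : Subgroup G) (hD : IsPGroup p D) (v : ℕ)
    (h : LargeCyclicSubgroup p D v) : LargeCentral p D v := by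
  obtain ⟨hp2, a, r, y, hy, hoy, hcard, har⟩ := h
  have hpf : Fact p.Prime := ⟨hp⟩
  obtain ⟨n, hn⟩ := IsPGroup.iff_card.1 hD
  have hdvd : orderOf y ∣ Nat.card D := by
    have := orderOf_dvd_natCard (⟨y, hy⟩ : D)
    rwa [Subgroup.orderOf_mk] at this
  have han : a ≤ n := by
    rw [hoy, hn] at hdvd
    exact (Nat.pow_dvd_pow_iff_le_right hp.one_lt).1 hdvd
  have hnr : n ≤ a + r := by
    rw [hn] at hcard
    exact (Nat.pow_le_pow_iff_right hp.one_lt).1 hcard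
  obtain ⟨r', hr'⟩ : ∃ r' : ℕ, n = a + r' := ⟨n - a, by omega⟩
  have hr'r : r' ≤ r := by omega
  obtain ⟨h1, h2, -⟩ := Pool.Agent.NA.CYC_sub D p hp hp2 hD y hy (p ^ r') (by rw [hn, hoy, hr', pow_add, mul_comm])
  refine ⟨a - r', 2 * r', y ^ p ^ r', h1, fun d hd => (h2 d hd).symm, ?_, ?_, ?_⟩
  · rw [orderOf_pow_of_dvd (pow_pos hp.pos _).ne', hoy]
    · exact Nat.pow_div (by omega) hp.pos
    · rw [hoy]
      exact pow_dvd_pow p (by omega)
  · rw [hn]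
    exact Nat.pow_le_pow_right hp.pos (by omega)
  · rw [if_neg hp2]
    omega

/-- The sum over `d`, `O_p(G) = 1`, `E_B / E[B]` cyclic of order prime to `p`. -/
theorem FinS_dade (p : ℕ) (hpr : p.Prime) (M : Ideal (integralClosure ℤ ℂ)) (hM : M.IsMaximal)
    (hp : (p : integralClosure ℤ ℂ) ∈ M) (G : Type) [Group G] [Finite G] (hG : IsOp p (⊤ : Subgroup G) ⊥)
    (χ : G → ℂ) (hχ : χ ∈ Irr G) (D : Subgroup G) (hD : Pool.Agent.MAP.DefectGroup p M χ D)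
    (E A : Type) [Group E] [Group A] [Finite E] (X : Extension G E A) (s : A) (n v : ℕ) (hn : 0 < n)
    (hsn : s ^ n ∈ Pool.Agent.BQ.AI X M χ) (hpn : ¬ p ∣ n) (hJ : ¬ p ^ (v + 1) ∣ Pool.Agent.MAPW.J2 n)
    (hs : ∀ a ∈ Pool.Agent.BQ.AB X M χ, ∃ k : ℤ, s ^ k * a ∈ Pool.Agent.BQ.AI X M χ)
    (hL : LargeCentral p D v ∨ LargeCyclicSubgroup p D v) (U : Subgroup A) :
    ∑ᶠ d : ℤ, altSum X p M χ d U = 0 := by
  have hDp : IsPGroup p D := by
    obtain ⟨x, -, -, -, h, -⟩ := hD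
    exact h
  have hL' : LargeCentral p D v := by
    rcases hL with h | h
    · exact h
    · exact cyclic_central hpr D hDp v h
  obtain ⟨e, m, z, hz, hzc, hoz, hcard, hem⟩ := hL'
  have hfA : Finite A := Finite.of_surjective X.proj X.proj_surjective
  obtain ⟨k, j, hk, hkp⟩ := red_order s n hn
  have hs' : ∀ a ∈ Pool.Agent.BQ.AB X M χ, ∃ i : ℤ, (s ^ k) ^ i * a ∈ Pool.Agent.BQ.AI X M χ :=
    fun a ha => red_cyc _ s n j k hsn hk a (hs a ha)
  obtain ⟨hm1, hm2⟩ := Pool.Agent.L5.AllL5.mEJ5 p n (orderOf (s ^ k)) (v + 1) hpr hn (orderOf_pos _) hpn hkp hJ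
  exact Pool.Agent.NAB.AllE.eXFD p e m M ⟨hpr, hM, hp⟩ v (by unfold Pool.Agent.NAB.bz; omega) G E A X hG χ hχ D hD hcard z hz
    (fun d hd => hzc d hd) hoz (s ^ k) hm1 hm2 hs' U

end Pool.Agent.NAS
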